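import Mathlib

/-!
Gaussian measures on lattices: the inequality of Regev and Stephens-Davidowitz, two-sided bounds
for Laplace transforms, and a Hammersley-Chapman-Robbins lower bound for second moments.
-/

open Real Filter Topology

noncomputable section

namespace DGC

/-- A lattice with a quadratic form whose Gaussian sums converge. -/
structure LatData (L : Type) [AddCommGroup L] where
  b : L →+ L →+ ℝ
  symm : ∀ x y, b x y = b y x
  pos : ∀ x, 0 ≤ b x x
  summ : ∀ ε : ℝ, 0 < ε → Summable fun x => exp (-(ε * b x x))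
  two : ∀ x : L, x + x = 0 → x = 0
  k : ℕ
  cls : L → Fin k
  hcls : ∀ s d, cls s = cls d ↔ ∃ x y, s = x + y ∧ d = x - y

namespace LatData

variable {L : Type} [AddCommGroup L] (D : LatData L)

lemma conv_eq {a c : L → ℝ} (ha : Summable a) (hc : Summable c) :
    ∑' p : L × L, a (p.1 + p.2) * c (p.1 - p.2) =
      ∑ j, (∑' s, if D.cls s = j then a s else 0) * ∑' s, if D.cls s = j then c s else 0 := by
  have hs : ∀ {f : L → ℝ}, Summable f → ∀ j, Summable fun s => ‖if D.cls s = j then f s else 0‖ :=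
    fun {f} hf j => Summable.of_nonneg_of_le (fun _ => norm_nonneg _)
      (fun s => by split_ifs <;> simp) hf.norm
  have h1 : ∀ j, (∑' s, if D.cls s = j then a s else 0) * (∑' s, if D.cls s = j then c s else 0) =
      ∑' p : L × L, (if D.cls p.1 = j then a p.1 else 0) * (if D.cls p.2 = j then c p.2 else 0) :=
    fun j => tsum_mul_tsum_of_summable_norm (hs ha j) (hs hc j)
  simp_rw [h1]
  rw [← Summable.tsum_finsetSum fun j _ => summable_mul_of_summable_norm (hs ha j) (hs hc j)]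
  have hinj : Function.Injective fun p : L × L => (p.1 + p.2, p.1 - p.2) := by
    rintro ⟨x, y⟩ ⟨x', y'⟩ h
    simp only [Prod.mk.injEq] at h
    have h1 : x - x' = 0 := D.two _ (by
      have : x - x' + (x - x') = (x + y - (x' + y')) + (x - y - (x' - y')) := by abel
      rw [this, h.1, h.2]; simp)
    have h2 : x = x' := sub_eq_zero.1 h1
    subst h2
    exact Prod.ext rfl (add_left_cancel h.1)
  have key : ∀ p : L × L, (∑ j, (if D.cls p.1 = j then a p.1 else 0) *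
      (if D.cls p.2 = j then c p.2 else 0)) = if D.cls p.1 = D.cls p.2 then a p.1 * c p.2 else 0 := by
    intro p
    rw [Finset.sum_eq_single (D.cls p.1)]
    · by_cases h : D.cls p.1 = D.cls p.2
      · simp [h]
      · simp [h, Ne.symm h]
    · intro j _ hj
      simp [Ne.symm hj]
    · simp
  simp_rw [key]
  rw [← hinj.tsum_eq (f := fun p : L × L => if D.cls p.1 = D.cls p.2 then a p.1 * c p.2 else 0)]
  · refine tsum_congr fun p => ?_
    rw [if_pos ((D.hcls _ _).2 ⟨_, _, rfl, rfl⟩)]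
  · intro p hp
    have : D.cls p.1 = D.cls p.2 := by
      by_contra h
      exact hp (if_neg h)
    obtain ⟨x, y, h1, h2⟩ := (D.hcls _ _).1 this
    exact ⟨(x, y), Prod.ext h1.symm h2.symm⟩

lemma lin_le {l : L →+ ℝ} {σ : ℝ} (hσ : 0 ≤ σ) (hl : ∀ x, l x ^ 2 ≤ σ * D.b x x) (t : ℝ) {η : ℝ}
    (hη : 0 < η) (x : L) : t * l x ≤ t ^ 2 * σ / (4 * η) + η * D.b x x := by
  have h1 := hl x
  have h2 := D.pos x
  have hA : 0 ≤ t ^ 2 * σ / (4 * η) := by positivity
  have h3 : (t * l x) ^ 2 ≤ (t ^ 2 * σ / (4 * η) + η * D.b x x) ^ 2 := by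
    have h4 : 4 * (t ^ 2 * σ / (4 * η)) * (η * D.b x x) = t ^ 2 * (σ * D.b x x) := by
      field_simp
    nlinarith [sq_nonneg (t ^ 2 * σ / (4 * η) - η * D.b x x), sq_nonneg t,
      mul_le_mul_of_nonneg_left h1 (sq_nonneg t)]
  exact (abs_le_of_sq_le_sq' h3 (by positivity)).2

lemma summ_lin {l : L →+ ℝ} {σ : ℝ} (hσ : 0 ≤ σ) (hl : ∀ x, l x ^ 2 ≤ σ * D.b x x) (t : ℝ) {η : ℝ}
    (hη : 0 < η) : Summable fun x => exp (t * l x - η * D.b x x) := by
  refine Summable.of_nonneg_of_le (fun _ => (exp_pos _).le) (fun x => ?_)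
    ((D.summ (η / 2) (by positivity)).mul_left (exp (t ^ 2 * σ / (4 * (η / 2)))))
  rw [← exp_add]
  have := D.lin_le hσ hl t (η := η / 2) (by positivity) x
  exact exp_le_exp.2 (by linarith)

/-- The tilted partition function. -/
def Zf (l : L →+ ℝ) (t : ℝ) : ℝ := ∑' x, exp (t * l x - D.b x x)

lemma summ_Zf {l : L →+ ℝ} {σ : ℝ} (hσ : 0 ≤ σ) (hl : ∀ x, l x ^ 2 ≤ σ * D.b x x) (t : ℝ) :
    Summable fun x => exp (t * l x - D.b x x) := by
  simpa using D.summ_lin hσ hl t one_pos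

lemma Zf_pos {l : L →+ ℝ} {σ : ℝ} (hσ : 0 ≤ σ) (hl : ∀ x, l x ^ 2 ≤ σ * D.b x x) (t : ℝ) :
    0 < D.Zf l t :=
  (D.summ_Zf hσ hl t).tsum_pos (fun _ => (exp_pos _).le) 0 (exp_pos _)

lemma Zf_mul {l : L →+ ℝ} {σ : ℝ} (hσ : 0 ≤ σ) (hl : ∀ x, l x ^ 2 ≤ σ * D.b x x) (t u : ℝ) :
    D.Zf l (t + u) * D.Zf l (t - u) =
      ∑ j, (∑' s, if D.cls s = j then exp (t * l s - 1 / 2 * D.b s s) else 0) *
        ∑' s, if D.cls s = j then exp (u * l s - 1 / 2 * D.b s s) else 0 := by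
  rw [← D.conv_eq (D.summ_lin hσ hl t (by norm_num)) (D.summ_lin hσ hl u (by norm_num)), Zf, Zf,
    tsum_mul_tsum_of_summable_norm (D.summ_Zf hσ hl _).norm (D.summ_Zf hσ hl _).norm]
  refine tsum_congr fun p => ?_
  rw [← exp_add, ← exp_add]
  congr 1
  simp only [map_add, map_sub, AddMonoidHom.add_apply, AddMonoidHom.sub_apply]
  ring

lemma rsd {l : L →+ ℝ} {σ : ℝ} (hσ : 0 ≤ σ) (hl : ∀ x, l x ^ 2 ≤ σ * D.b x x) (t : ℝ) :
    (D.Zf l t / D.Zf l 0) ^ 4 ≤ D.Zf l (2 * t) / D.Zf l 0 := by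
  have h0 := D.Zf_pos hσ hl 0
  have h1 := D.Zf_mul hσ hl t 0
  have h2 := D.Zf_mul hσ hl t t
  have h3 := D.Zf_mul hσ hl 0 0
  have h4 := Finset.sum_mul_sq_le_sq_mul_sq Finset.univ
    (fun j => ∑' s, if D.cls s = j then exp (t * l s - 1 / 2 * D.b s s) else 0)
    (fun j => ∑' s, if D.cls s = j then exp (0 * l s - 1 / 2 * D.b s s) else 0)
  simp only [sq] at h4
  rw [← h1, ← h2, ← h3] at h4
  simp only [add_zero, sub_zero, sub_self, ← two_mul, mul_zero] at h4
  rw [div_pow, div_le_div_iff₀ (by positivity) h0]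
  nlinarith [mul_le_mul_of_nonneg_right h4 h0.le]

lemma rsd_iter {l : L →+ ℝ} {σ : ℝ} (hσ : 0 ≤ σ) (hl : ∀ x, l x ^ 2 ≤ σ * D.b x x) (t : ℝ)
    (k : ℕ) : (D.Zf l t / D.Zf l 0) ^ (4 ^ k) ≤ D.Zf l (2 ^ k * t) / D.Zf l 0 := by
  induction k with
  | zero => simp
  | succ k ih =>
    have h0 := D.Zf_pos hσ hl 0
    have h1 := D.Zf_pos hσ hl t
    rw [pow_succ, pow_mul]
    refine (pow_le_pow_left₀ (by positivity) ih 4).trans ?_
    have := D.rsd hσ hl (2 ^ k * t)
    rwa [show 2 * (2 ^ k * t) = 2 ^ (k + 1) * t by ring] at this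

/-- Gaussian domination. -/
theorem mgf_le {l : L →+ ℝ} {σ : ℝ} (hσ : 0 ≤ σ) (hl : ∀ x, l x ^ 2 ≤ σ * D.b x x) (t : ℝ) :
    D.Zf l t / D.Zf l 0 ≤ exp (t ^ 2 * σ / 4) := by
  have h0 := D.Zf_pos hσ hl 0
  have h1 := D.Zf_pos hσ hl t
  have hq : 0 < D.Zf l t / D.Zf l 0 := by positivity
  rw [← exp_log hq, exp_le_exp]
  have key : ∀ η : ℝ, 0 < η → η < 1 → log (D.Zf l t / D.Zf l 0) ≤ t ^ 2 * σ / (4 * η) := by
    intro η hη hη1
    set C := (∑' x, exp (-((1 - η) * D.b x x))) / D.Zf l 0 with hC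
    have hs := D.summ (1 - η) (by linarith)
    have hCpos : 0 < C := div_pos (hs.tsum_pos (fun _ => (exp_pos _).le) 0 (exp_pos _)) h0
    have hk : ∀ k : ℕ, log (D.Zf l t / D.Zf l 0) ≤ t ^ 2 * σ / (4 * η) + log C / 4 ^ k := by
      intro k
      have h2 := D.rsd_iter hσ hl t k
      have h3 : D.Zf l (2 ^ k * t) / D.Zf l 0 ≤ exp ((2 ^ k * t) ^ 2 * σ / (4 * η)) * C := by
        rw [hC, ← mul_div_assoc, ← tsum_mul_left]
        refine div_le_div_of_nonneg_right ?_ h0.le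
        refine (D.summ_Zf hσ hl _).tsum_le_tsum (fun x => ?_) (hs.mul_left _)
        rw [← exp_add]
        have := D.lin_le hσ hl (2 ^ k * t) hη x
        exact exp_le_exp.2 (by linarith)
      have h4 := log_le_log (by positivity) (h2.trans h3)
      rw [log_pow, log_mul (exp_pos _).ne' hCpos.ne', log_exp] at h4
      have h5 : ((2 : ℝ) ^ k * t) ^ 2 = 4 ^ k * t ^ 2 := by
        rw [mul_pow, ← pow_mul, mul_comm k 2, pow_mul]; norm_num
      have h6 : (0 : ℝ) < 4 ^ k := by positivity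
      rw [h5] at h4
      push_cast at h4
      have h7 : t ^ 2 * σ / (4 * η) + log C / 4 ^ k =
          (4 ^ k * t ^ 2 * σ / (4 * η) + log C) / 4 ^ k := by field_simp
      rw [h7, le_div_iff₀ h6]
      linarith
    have hlim : Tendsto (fun k : ℕ => t ^ 2 * σ / (4 * η) + log C / 4 ^ k) atTop
        (𝓝 (t ^ 2 * σ / (4 * η) + 0)) :=
      tendsto_const_nhds.add (tendsto_const_nhds.div_atTop
        (tendsto_pow_atTop_atTop_of_one_lt (by norm_num)))
    simpa using ge_of_tendsto' hlim hk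
  have hc : ContinuousAt (fun η : ℝ => t ^ 2 * σ / (4 * η)) 1 :=
    continuousAt_const.div (by fun_prop) (by norm_num)
  have hlim : Tendsto (fun η : ℝ => t ^ 2 * σ / (4 * η)) (𝓝[<] 1) (𝓝 (t ^ 2 * σ / (4 * 1))) :=
    hc.tendsto.mono_left nhdsWithin_le_nhds
  have := ge_of_tendsto hlim (by
    filter_upwards [Ioo_mem_nhdsLT (show (0 : ℝ) < 1 by norm_num)] with η hη
    exact key η hη.1 hη.2)
  simpa using this

lemma summ0 : Summable fun x => exp (-D.b x x) := by simpa using D.summ 1 one_pos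

lemma summ2 {l : L →+ ℝ} {σ : ℝ} (hσ : 0 ≤ σ) (hl : ∀ x, l x ^ 2 ≤ σ * D.b x x) :
    Summable fun x => l x ^ 2 * exp (-D.b x x) := by
  refine Summable.of_nonneg_of_le (fun _ => by positivity) (fun x => ?_)
    ((D.summ (1 / 2) (by positivity)).mul_left (2 * σ))
  have h1 : D.b x x / 2 ≤ exp (D.b x x / 2) := by linarith [add_one_le_exp (D.b x x / 2)]
  have h2 : exp (-(1 / 2 * D.b x x)) = exp (D.b x x / 2) * exp (-D.b x x) := by
    rw [← exp_add]; congr 1; ring
  rw [h2, ← mul_assoc]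
  refine mul_le_mul_of_nonneg_right ?_ (exp_pos _).le
  nlinarith [hl x]

lemma summ1 {l : L →+ ℝ} {σ : ℝ} (hσ : 0 ≤ σ) (hl : ∀ x, l x ^ 2 ≤ σ * D.b x x) :
    Summable fun x => l x * exp (-D.b x x) := by
  refine Summable.of_norm_bounded ((D.summ2 hσ hl).add D.summ0) fun x => ?_
  rw [norm_mul, Real.norm_eq_abs, Real.norm_eq_abs, abs_of_pos (exp_pos _), ← add_one_mul]
  refine mul_le_mul_of_nonneg_right ?_ (exp_pos _).le
  nlinarith [sq_abs (l x), sq_nonneg (|l x| - 1), abs_nonneg (l x)]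

lemma mean_zero (l : L →+ ℝ) : ∑' x, l x * exp (-D.b x x) = 0 := by
  have h := (Equiv.neg L).tsum_eq fun x => l x * exp (-D.b x x)
  simp only [Equiv.neg_apply, map_neg, AddMonoidHom.neg_apply, neg_neg, neg_mul, tsum_neg] at h
  linarith

lemma Zf_zero (l : L →+ ℝ) : D.Zf l 0 = ∑' x, exp (-D.b x x) := by simp [Zf]

lemma one_add_sq_le_cosh (y : ℝ) : 1 + y ^ 2 / 2 ≤ cosh y := by
  have h1 : cosh y = 2 * sinh (y / 2) ^ 2 + 1 := by
    have := cosh_two_mul (y / 2)
    rw [show 2 * (y / 2) = y by ring] at this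
    rw [this, cosh_sq]; ring
  have h2 : |y / 2| ≤ |sinh (y / 2)| := by
    rw [abs_sinh]; exact self_le_sinh_iff.2 (abs_nonneg _)
  have h3 := sq_le_sq.2 h2
  nlinarith

/-- The second moment. -/
def mom (l : L →+ ℝ) : ℝ := (∑' x, l x ^ 2 * exp (-D.b x x)) / ∑' x, exp (-D.b x x)

lemma one_add_le {l : L →+ ℝ} {σ : ℝ} (hσ : 0 ≤ σ) (hl : ∀ x, l x ^ 2 ≤ σ * D.b x x) (t : ℝ) :
    1 + t ^ 2 * D.mom l / 2 ≤ D.Zf l t / D.Zf l 0 := by
  have h0 := D.Zf_pos hσ hl 0
  have h1 : D.Zf l t = D.Zf l (-t) := by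
    have h := (Equiv.neg L).tsum_eq fun x => exp (t * l x - D.b x x)
    simp only [Equiv.neg_apply, map_neg, AddMonoidHom.neg_apply, neg_neg] at h
    rw [Zf, Zf, ← h]
    exact tsum_congr fun x => by congr 1; ring
  have h2 : D.Zf l 0 + t ^ 2 / 2 * ∑' x, l x ^ 2 * exp (-D.b x x) ≤
      (D.Zf l t + D.Zf l (-t)) / 2 := by
    rw [Zf_zero, ← tsum_mul_left, ← D.summ0.tsum_add ((D.summ2 hσ hl).mul_left _), Zf, Zf,
      ← (D.summ_Zf hσ hl t).tsum_add (D.summ_Zf hσ hl (-t)), ← tsum_div_const]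
    refine (D.summ0.add ((D.summ2 hσ hl).mul_left _)).tsum_le_tsum (fun x => ?_)
      (((D.summ_Zf hσ hl t).add (D.summ_Zf hσ hl (-t))).div_const _)
    have h3 := one_add_sq_le_cosh (t * l x)
    rw [cosh_eq] at h3
    have h4 := mul_le_mul_of_nonneg_right h3 (exp_pos (-D.b x x)).le
    rw [sub_eq_add_neg, sub_eq_add_neg, exp_add, exp_add, neg_mul]
    nlinarith
  rw [← h1] at h2
  rw [mom, ← D.Zf_zero l, le_div_iff₀ h0]
  have : (1 + t ^ 2 * ((∑' x, l x ^ 2 * exp (-D.b x x)) / D.Zf l 0) / 2) * D.Zf l 0 =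
      D.Zf l 0 + t ^ 2 / 2 * ∑' x, l x ^ 2 * exp (-D.b x x) := by field_simp
  linarith

lemma mom_nonneg (l : L →+ ℝ) : 0 ≤ D.mom l :=
  div_nonneg (tsum_nonneg fun _ => by positivity) (tsum_nonneg fun _ => by positivity)

/-- The Laplace transform dominates the one of the Gaussian with the same variance. -/
theorem le_mgf {l : L →+ ℝ} {σ : ℝ} (hσ : 0 ≤ σ) (hl : ∀ x, l x ^ 2 ≤ σ * D.b x x) (t : ℝ) :
    exp (t ^ 2 * D.mom l / 2) ≤ D.Zf l t / D.Zf l 0 := by
  have hm := D.mom_nonneg l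
  have hlim := (tendsto_one_add_div_pow_exp (t ^ 2 * D.mom l / 2)).comp
    (tendsto_pow_atTop_atTop_of_one_lt (show 1 < (4 : ℕ) by norm_num))
  refine le_of_tendsto' hlim fun k => ?_
  have h1 := D.rsd_iter hσ hl (t / 2 ^ k) k
  rw [show (2 : ℝ) ^ k * (t / 2 ^ k) = t by field_simp] at h1
  refine le_trans ?_ h1
  refine pow_le_pow_left₀ (by positivity) (le_trans (le_of_eq ?_) (D.one_add_le hσ hl _)) _
  have h5 : ((2 : ℝ) ^ k) ^ 2 = 4 ^ k := by
    rw [← pow_mul, mul_comm k 2, pow_mul]; norm_num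
  rw [div_pow, h5]
  push_cast
  field_simp

theorem mom_le {l : L →+ ℝ} {σ : ℝ} (hσ : 0 ≤ σ) (hl : ∀ x, l x ^ 2 ≤ σ * D.b x x) :
    D.mom l ≤ σ / 2 := by
  have := exp_le_exp.1 ((D.le_mgf hσ hl 1).trans (D.mgf_le hσ hl 1))
  linarith

lemma shift (f : L → ℝ) (w : L) :
    ∑' x, f x * exp (2 * D.b w x - D.b w w) * exp (-D.b x x) =
      ∑' x, f (x + w) * exp (-D.b x x) := by
  rw [← (Equiv.addRight w).tsum_eq]
  refine tsum_congr fun x => ?_
  simp only [Equiv.coe_addRight, map_add, AddMonoidHom.add_apply, mul_assoc, ← exp_add]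
  rw [D.symm x w]
  congr 2
  ring

lemma shift_summ {f : L → ℝ} (w : L) (h : Summable fun x => f (x + w) * exp (-D.b x x)) :
    Summable fun x => f x * exp (2 * D.b w x - D.b w w) * exp (-D.b x x) := by
  rw [← (Equiv.addRight w).summable_iff]
  refine h.congr fun x => ?_
  simp only [Function.comp, Equiv.coe_addRight, map_add, AddMonoidHom.add_apply, mul_assoc,
    ← exp_add]
  rw [D.symm x w]
  congr 2
  ring

/-- Hammersley-Chapman-Robbins bound. -/
theorem le_mom {l : L →+ ℝ} {σ : ℝ} (hσ : 0 ≤ σ) (hl : ∀ x, l x ^ 2 ≤ σ * D.b x x)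
    {ι : Type} (s : Finset ι) (a : ι → ℝ) (w : ι → L) :
    2 * ∑ i ∈ s, a i * l (w i) - ∑ i ∈ s, ∑ j ∈ s, a i * a j * (exp (2 * D.b (w i) (w j)) - 1) ≤
      D.mom l := by
  set Z := ∑' x, exp (-D.b x x) with hZ
  have h0 : 0 < Z := D.summ0.tsum_pos (fun _ => (exp_pos _).le) 0 (exp_pos _)
  set e : ι → L → ℝ := fun i x => exp (2 * D.b (w i) x - D.b (w i) (w i)) with he
  have hE : ∀ i, HasSum (fun x => e i x * exp (-D.b x x)) Z := by
    intro i
    have h1 := D.shift_summ (f := fun _ => 1) (w i) (by simpa using D.summ0)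
    have h2 := D.shift (fun _ => 1) (w i)
    simp only [one_mul] at h1 h2
    rw [hZ, ← h2]
    exact h1.hasSum
  have hlE : ∀ i, HasSum (fun x => l x * e i x * exp (-D.b x x)) (l (w i) * Z) := by
    intro i
    have h3 : HasSum (fun x => l (x + w i) * exp (-D.b x x)) (l (w i) * Z) := by
      have := (D.summ1 hσ hl).hasSum.add (D.summ0.hasSum.mul_left (l (w i)))
      rw [D.mean_zero, zero_add] at this
      refine this.congr_fun fun x => ?_
      rw [map_add]; ring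
    have h1 := D.shift_summ (f := l) (w i) h3.summable
    have h2 := D.shift l (w i)
    rw [h3.tsum_eq] at h2
    rw [← h2]
    exact h1.hasSum
  have hEE : ∀ i j, HasSum (fun x => e i x * e j x * exp (-D.b x x))
      (exp (2 * D.b (w i) (w j)) * Z) := by
    intro i j
    have h1 := D.shift_summ (f := fun _ => 1) (w i + w j) (by simpa using D.summ0)
    have h2 := D.shift (fun _ => 1) (w i + w j)
    simp only [one_mul] at h1 h2
    have h3 := h1.hasSum.mul_left (exp (2 * D.b (w i) (w j)))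
    rw [h2] at h3
    refine h3.congr_fun fun x => ?_
    simp only [he, map_add, AddMonoidHom.add_apply, ← exp_add]
    rw [D.symm (w j) (w i)]
    congr 1
    ring
  have hY : HasSum (fun x => l x * (∑ i ∈ s, a i * (e i x - 1)) * exp (-D.b x x))
      (∑ i ∈ s, a i * l (w i) * Z) := by
    have := hasSum_sum (s := s) fun i _ =>
      (((hlE i).sub (D.summ1 hσ hl).hasSum).mul_left (a i))
    rw [D.mean_zero] at this
    rw [show ∑ i ∈ s, a i * l (w i) * Z = ∑ i ∈ s, a i * (l (w i) * Z - 0) from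
      Finset.sum_congr rfl fun i _ => by ring]
    refine this.congr_fun fun x => ?_
    rw [Finset.mul_sum, Finset.sum_mul]
    exact Finset.sum_congr rfl fun i _ => by ring
  have hYY : HasSum (fun x => (∑ i ∈ s, a i * (e i x - 1)) ^ 2 * exp (-D.b x x))
      (∑ i ∈ s, ∑ j ∈ s, a i * a j * (exp (2 * D.b (w i) (w j)) - 1) * Z) := by
    have := hasSum_sum (s := s) fun i _ => hasSum_sum (s := s) fun j _ =>
      (((((hEE i j).sub (hE i)).sub (hE j)).add D.summ0.hasSum).mul_left (a i * a j))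
    rw [show ∑ i ∈ s, ∑ j ∈ s, a i * a j * (exp (2 * D.b (w i) (w j)) - 1) * Z =
      ∑ i ∈ s, ∑ j ∈ s, a i * a j * (exp (2 * D.b (w i) (w j)) * Z - Z - Z + Z) from
      Finset.sum_congr rfl fun i _ => Finset.sum_congr rfl fun j _ => by ring]
    refine this.congr_fun fun x => ?_
    rw [sq, Finset.sum_mul_sum, Finset.sum_mul]
    refine Finset.sum_congr rfl fun i _ => ?_
    rw [Finset.sum_mul]
    exact Finset.sum_congr rfl fun j _ => by ring
  have hfin := hasSum_le (fun x => ?_) ((hY.mul_left 2).sub hYY) (D.summ2 hσ hl).hasSum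
  · rw [mom, ← hZ, le_div_iff₀ h0, sub_mul, mul_assoc, Finset.sum_mul, Finset.sum_mul]
    simp_rw [Finset.sum_mul]
    exact hfin
  · have := mul_nonneg (sq_nonneg (l x - ∑ i ∈ s, a i * (e i x - 1))) (exp_pos (-D.b x x)).le
    nlinarith

end LatData

end DGC
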