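import Pool.Agent.Lib.MP_57c4e5_pr.Energy
import Pool.Agent.Lib.MP_57c4e5_pr.Lat

/-!
The discrete Gaussian chain as a lattice Gaussian, and the lower bound for second moments.
-/

open Real Filter Topology Finset

noncomputable section

namespace DGC

/-- The configurations as a subgroup. -/
def Lat (n : ℕ) : AddSubgroup (ℤ → ℤ) where
  carrier := {ψ | ∀ x : ℤ, (n : ℤ) < |x| → ψ x = 0}
  add_mem' := fun ha hb x hx => by simp [ha x hx, hb x hx]
  zero_mem' := fun _ _ => rfl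
  neg_mem' := fun ha x hx => by simp [ha x hx]

instance (n : ℕ) : AddCommGroup (Conf n) := (Lat n).toAddCommGroup

/-- A configuration as a real function. -/
def cR (n : ℕ) : Conf n →+ (ℤ → ℝ) :=
  AddMonoidHom.mk' (fun ψ x => (ψ.1 x : ℝ)) fun _ _ => funext fun _ => Int.cast_add _ _

lemma supp_cR {n : ℕ} (ψ : Conf n) : Supp n (cR n ψ) := fun x hx => by
  show ((ψ.1 x : ℤ) : ℝ) = 0
  rw [ψ.2 x hx, Int.cast_zero]

lemma summable_pi {ι : Type} [Fintype ι] [DecidableEq ι] {f : ℤ → ℝ} (hf0 : ∀ z, 0 ≤ f z)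
    (hf : Summable f) : Summable fun g : ι → ℤ => ∏ i, f (g i) := by
  refine summable_of_sum_le (c := ∏ _i : ι, ∑' z, f z) (fun g => prod_nonneg fun i _ => hf0 _)
    fun S => ?_
  calc ∑ g ∈ S, ∏ i, f (g i)
      ≤ ∑ g ∈ Fintype.piFinset (fun _ : ι => S.biUnion fun g => univ.image g), ∏ i, f (g i) :=
        sum_le_sum_of_subset_of_nonneg (fun g hg => by
          simp only [Fintype.mem_piFinset, mem_biUnion, mem_image, mem_univ, true_and]
          exact fun i => ⟨g, hg, i, rfl⟩) fun g _ _ => prod_nonneg fun i _ => hf0 _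
    _ = ∏ _i : ι, ∑ z ∈ S.biUnion fun g => univ.image g, f z := (prod_univ_sum _ _).symm
    _ ≤ _ := prod_le_prod (fun _ _ => sum_nonneg fun z _ => hf0 z)
        fun _ _ => hf.sum_le_tsum _ fun z _ => hf0 z

lemma sq_le_H {α : ℝ} (hα : 2 < α) (n : ℕ) : ∃ K : ℝ, 0 < K ∧ ∀ u : ℤ → ℝ, Supp n u →
    ∀ x, u x ^ 2 ≤ K * H α u := by
  obtain ⟨C, hC, h⟩ := morrey_H hα
  refine ⟨(C * (2 * (n : ℝ) + 1) ^ ((α - 2) / 2)) ^ 2, by positivity, fun u hu x => ?_⟩
  have hH := H_nonneg α u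
  by_cases hx : (n : ℤ) < |x|
  · rw [hu x hx]; simp only [ne_eq, OfNat.ofNat_ne_zero, not_false_eq_true, zero_pow]; positivity
  have h1 := h n u hu x (n + 1)
  rw [hu (n + 1) (by rw [abs_of_nonneg (by omega)]; omega), sub_zero] at h1
  have h2 : |(x : ℝ) - ((n + 1 : ℤ) : ℝ)| ≤ 2 * (n : ℝ) + 1 := by
    have : |x - (n + 1)| ≤ 2 * (n : ℤ) + 1 := by
      rw [not_lt, abs_le] at hx
      rw [abs_le]; omega
    exact_mod_cast this
  have h3 := rpow_le_rpow (abs_nonneg _) h2 (by linarith : 0 ≤ (α - 2) / 2)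
  have h4 : |u x| ≤ C * (2 * (n : ℝ) + 1) ^ ((α - 2) / 2) * √(H α u) := h1.trans (by gcongr)
  have h5 := pow_le_pow_left₀ (abs_nonneg _) h4 2
  rwa [sq_abs, mul_pow, sq_sqrt hH] at h5

lemma summable_gibbs {α : ℝ} (hα : 2 < α) (n : ℕ) {ε : ℝ} (hε : 0 < ε) :
    Summable fun ψ : Conf n => exp (-(ε * H α (cR n ψ))) := by
  obtain ⟨K, hK, h⟩ := sq_le_H hα n
  set I := Icc (-(n : ℤ)) n
  set c := ε / (K * (I.card + 1)) with hc
  have hc0 : 0 < c := by positivity
  have h1 : Summable fun z : ℤ => exp (-(c * (z : ℝ) ^ 2)) := by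
    have h0 : Summable fun m : ℕ => exp (-(c * (m : ℝ) ^ 2)) := by
      refine Summable.of_nonneg_of_le (fun _ => (exp_pos _).le) (fun m => ?_)
        (summable_exp_nat_mul_iff.2 (neg_lt_zero.2 hc0))
      have : (m : ℝ) ≤ m ^ 2 := by exact_mod_cast Nat.le_self_pow two_ne_zero m
      exact exp_le_exp.2 (by nlinarith)
    exact Summable.of_nat_of_neg (by simpa using h0) (by simpa using h0)
  have hinj : Function.Injective fun (ψ : Conf n) (x : I) => ψ.1 x := by
    intro ψ φ e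
    refine Subtype.ext (funext fun x => ?_)
    by_cases hx : (n : ℤ) < |x|
    · rw [ψ.2 x hx, φ.2 x hx]
    · exact congrFun e ⟨x, by rwa [mem_Icc, ← abs_le, ← not_lt]⟩
  refine Summable.of_nonneg_of_le (fun _ => (exp_pos _).le) (fun ψ => ?_)
    ((summable_pi (fun _ => (exp_pos _).le) h1).comp_injective hinj)
  simp only [Function.comp]
  rw [← exp_sum, exp_le_exp, sum_neg_distrib, neg_le_neg_iff, ← mul_sum]
  have h2 : ∑ x : I, ((ψ.1 x : ℤ) : ℝ) ^ 2 ≤ ∑ _x : I, K * H α (cR n ψ) :=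
    sum_le_sum fun x _ => h _ (supp_cR ψ) x
  rw [sum_const, card_univ, Fintype.card_coe, nsmul_eq_mul] at h2
  have h3 := H_nonneg α (cR n ψ)
  rw [hc, div_mul_eq_mul_div, div_le_iff₀ (by positivity)]
  nlinarith [mul_le_mul_of_nonneg_left h2 hε.le, mul_nonneg hε.le (mul_nonneg hK.le h3)]

/-- The chain as a lattice Gaussian. -/
def chain {α β : ℝ} (hα : 2 < α) (hβ : 0 < β) (n : ℕ) : LatData (Conf n) where
  b := AddMonoidHom.mk' (fun ψ => AddMonoidHom.mk' (fun φ => β * B α (cR n ψ) (cR n φ))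
      fun φ χ => by
        rw [map_add, ← mul_add, ← B_add (by linarith) (supp_cR ψ) (supp_cR φ) (supp_cR χ)]; rfl)
    fun ψ φ => AddMonoidHom.ext fun χ => by
      simp only [AddMonoidHom.mk'_apply, AddMonoidHom.add_apply]
      rw [map_add, ← mul_add, B_comm, B_comm α (cR n ψ), B_comm α (cR n φ),
        ← B_add (by linarith) (supp_cR χ) (supp_cR ψ) (supp_cR φ)]; rfl
  symm := fun x y => by simp only [AddMonoidHom.mk'_apply]; rw [B_comm]
  pos := fun x => by
    simp only [AddMonoidHom.mk'_apply, B_self]; exact mul_nonneg hβ.le (H_nonneg _ _)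
  summ := fun ε hε => by
    simp only [AddMonoidHom.mk'_apply, B_self, ← mul_assoc]
    exact summable_gibbs hα n (mul_pos hε hβ)
  two := fun x hx => Subtype.ext (funext fun y => by
    have : x.1 y + x.1 y = 0 := congrFun (congrArg Subtype.val hx) y
    show x.1 y = 0
    omega)
  k := Fintype.card (Icc (-(n : ℤ)) n → ZMod 2)
  cls := fun ψ => Fintype.equivFin _ fun x => (ψ.1 x : ZMod 2)
  hcls := fun s d => by
    rw [Equiv.apply_eq_iff_eq]
    constructor
    · intro e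
      have h : ∀ x, (2 : ℤ) ∣ d.1 x - s.1 x := fun x => by
        by_cases hx : (n : ℤ) < |x|
        · rw [s.2 x hx, d.2 x hx]; simp
        · exact (ZMod.intCast_eq_intCast_iff_dvd_sub _ _ 2).1
            (congrFun e ⟨x, by rwa [mem_Icc, ← abs_le, ← not_lt]⟩)
      refine ⟨⟨fun x => (s.1 x + d.1 x) / 2, fun x hx => by simp [s.2 x hx, d.2 x hx]⟩,
        ⟨fun x => (s.1 x - d.1 x) / 2, fun x hx => by simp [s.2 x hx, d.2 x hx]⟩,
        Subtype.ext (funext fun x => ?_), Subtype.ext (funext fun x => ?_)⟩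
      · show s.1 x = (s.1 x + d.1 x) / 2 + (s.1 x - d.1 x) / 2
        have := h x
        omega
      · show d.1 x = (s.1 x + d.1 x) / 2 - (s.1 x - d.1 x) / 2
        have := h x
        omega
    · rintro ⟨x, y, rfl, rfl⟩
      funext z
      show ((x.1 z + y.1 z : ℤ) : ZMod 2) = ((x.1 z - y.1 z : ℤ) : ZMod 2)
      exact (ZMod.intCast_eq_intCast_iff_dvd_sub _ _ 2).2 ⟨-y.1 z, by push_cast; ring⟩

lemma chain_b {α β : ℝ} (hα : 2 < α) (hβ : 0 < β) (n : ℕ) (ψ φ : Conf n) :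
    (chain hα hβ n).b ψ φ = β * B α (cR n ψ) (cR n φ) := rfl

lemma chain_self {α β : ℝ} (hα : 2 < α) (hβ : 0 < β) (n : ℕ) (ψ : Conf n) :
    (chain hα hβ n).b ψ ψ = β * H α (cR n ψ) := by rw [chain_b, B_self]

lemma expect_eq {α β : ℝ} (hα : 2 < α) (hβ : 0 < β) (n : ℕ) (F : Conf n → ℝ) :
    expect α β n F = (∑' ψ, F ψ * exp (-(chain hα hβ n).b ψ ψ)) /
      ∑' ψ, exp (-(chain hα hβ n).b ψ ψ) := by
  simp only [expect, chain_self, neg_mul]; rfl

/-- Indicator of the pairs separated by the bond to the left of `i`. -/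
def chi (i : ℤ) (p : ℤ × ℤ) : ℝ := if p.1 < i ∧ i ≤ p.2 then 1 else 0

lemma G_bound {α γ : ℝ} (hγ0 : 0 ≤ γ) (hγ : γ < α - 2) : ∃ C : ℝ, 0 ≤ C ∧ ∀ i k : ℤ,
    Summable (fun p => J α p * (chi i p * chi k p)) ∧
      ∑' p, J α p * (chi i p * chi k p) ≤ C / (|(i : ℝ) - k| + 1) ^ γ := by
  have hs := summable_shift_rpow (show 1 < α - 1 - γ by linarith)
  refine ⟨∑' r : ℕ, 1 / ((r : ℝ) + 1) ^ (α - 1 - γ), tsum_nonneg fun r => by positivity,
    fun i k => ?_⟩
  have hD : 0 < (|(i : ℝ) - k| + 1) ^ γ := by positivity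
  have hle : ∀ r : ℕ, (if |i - k| ≤ r then (r : ℝ) + 1 else 0) / ((r : ℝ) + 1) ^ α ≤
      1 / ((r : ℝ) + 1) ^ (α - 1 - γ) / (|(i : ℝ) - k| + 1) ^ γ := by
    intro r
    have hr : (0 : ℝ) < (r : ℝ) + 1 := by positivity
    split_ifs with h
    · have h1 : |(i : ℝ) - k| + 1 ≤ r + 1 := by exact_mod_cast (by omega : |i - k| + 1 ≤ r + 1)
      have h2 := rpow_le_rpow (by positivity) h1 hγ0
      rw [div_div, div_le_div_iff₀ (by positivity) (by positivity), one_mul,
        show α = 1 + ((α - 1 - γ) + γ) by ring, rpow_add hr, rpow_add hr, rpow_one,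
        show 1 + ((α - 1 - γ) + γ) - 1 - γ = α - 1 - γ by ring]
      gcongr
    · rw [zero_div]; positivity
  have h3 := Summable.of_nonneg_of_le (fun r => by split_ifs <;> positivity) hle (hs.div_const _)
  have hz : ∀ (r : ℕ) (x : ℤ), x ∉ Ico (i - r - 1) i →
      chi i (x, x + r + 1) * chi k (x, x + r + 1) = 0 := fun r x hx => by
    rw [mem_Ico] at hx
    simp only [chi]
    rw [if_neg (by omega), zero_mul]
  have := sum_J (α := α) (f := fun p => chi i p * chi k p)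
    (c := fun r => if |i - k| ≤ r then (r : ℝ) + 1 else 0)
    (fun p => by unfold chi; split_ifs <;> norm_num)
    (fun r => summable_of_ne_finset_zero (hz r)) (fun r => ?_) h3
  · refine ⟨this.1, this.2.trans ?_⟩
    rw [← tsum_div_const]
    exact h3.tsum_le_tsum hle (hs.div_const _)
  · rw [tsum_eq_sum (hz r)]
    split_ifs with h
    · refine (sum_le_card_nsmul _ _ 1 fun x _ => by unfold chi; split_ifs <;> norm_num).trans ?_
      rw [Int.card_Ico, show (i - (i - r - 1)).toNat = r + 1 by omega]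
      simp
    · refine (sum_eq_zero fun x _ => ?_).le
      simp only [chi]
      rw [abs_le] at h
      split_ifs <;> first | omega | norm_num

/-- Unit step at `i`. -/
def step (i x : ℤ) : ℤ := if i ≤ x then 1 else 0

lemma B_step {α : ℝ} {G : ℤ → ℤ → ℝ} (hG : ∀ i k : ℤ,
    Summable (fun p => J α p * (chi i p * chi k p)) ∧ ∑' p, J α p * (chi i p * chi k p) ≤ G i k)
    (i j k l : ℤ) : |B α (fun x => ((step i x - step j x : ℤ) : ℝ))
      (fun x => ((step k x - step l x : ℤ) : ℝ))| ≤ G i k + G i l + G j k + G j l := by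
  have hs := (((hG i k).1.hasSum.add (hG i l).1.hasSum).add (hG j k).1.hasSum).add (hG j l).1.hasSum
  rw [← Real.norm_eq_abs, B]
  refine (tsum_of_norm_bounded hs fun p => ?_).trans
    (add_le_add (add_le_add (add_le_add (hG i k).2 (hG i l).2) (hG j k).2) (hG j l).2)
  rw [norm_mul, Real.norm_eq_abs, Real.norm_eq_abs, abs_of_nonneg (J_nonneg _ _), ← mul_add,
    ← mul_add, ← mul_add]
  by_cases hp : p.1 < p.2
  · refine mul_le_mul_of_nonneg_left ?_ (J_nonneg _ _)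
    have h : ∀ i, ((step i p.2 : ℤ) : ℝ) = step i p.1 + chi i p := fun i => by
      simp only [step, chi]
      split_ifs <;> first | omega | norm_num
    have h0 : ∀ i, 0 ≤ chi i p := fun i => by unfold chi; split_ifs <;> norm_num
    push_cast
    rw [h i, h j, h k, h l, abs_le]
    constructor <;> nlinarith [mul_nonneg (h0 i) (h0 k), mul_nonneg (h0 i) (h0 l),
      mul_nonneg (h0 j) (h0 k), mul_nonneg (h0 j) (h0 l)]
  · simp [J, hp]

lemma sum_step {n : ℕ} {h : ℤ → ℝ} (hh : Supp n h) (x : ℤ) :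
    ∑ i ∈ Icc (-(n : ℤ)) (n + 1), (h i - h (i - 1)) * step i x = h x := by
  have key : ∀ x : ℤ, ∑ i ∈ Icc (-(n : ℤ)) (n + 1), (h i - h (i - 1)) * step i x - h x =
      ∑ i ∈ Icc (-(n : ℤ)) (n + 1), (h i - h (i - 1)) * step i (x - 1) - h (x - 1) := by
    intro x
    have : ∑ i ∈ Icc (-(n : ℤ)) (n + 1), ((h i - h (i - 1)) * step i x -
        (h i - h (i - 1)) * step i (x - 1)) = h x - h (x - 1) := by
      rw [sum_eq_single x]
      · simp [step]
      · intro i _ hi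
        simp only [step]
        split_ifs <;> first | omega | simp
      · intro hx
        rw [mem_Icc] at hx
        rw [hh x (by rw [lt_abs]; omega), hh (x - 1) (by rw [lt_abs]; omega)]; simp
    rw [sum_sub_distrib] at this
    linarith
  have h0 : ∑ i ∈ Icc (-(n : ℤ)) (n + 1), (h i - h (i - 1)) * step i (-n - 1) - h (-n - 1) = 0 := by
    rw [hh (-n - 1) (by rw [lt_abs]; omega), sub_zero]
    exact sum_eq_zero fun i hi => by
      rw [mem_Icc] at hi
      simp only [step]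
      rw [if_neg (by omega)]; simp
  rw [← sub_eq_zero]
  refine Int.inductionOn' x (-n - 1) h0 (fun k _ hk => ?_) (fun k _ hk => ?_)
  · rw [key, add_sub_cancel_right, hk]
  · rw [← key, hk]

lemma exp_sub_le {R y : ℝ} (hy : |y| ≤ R) : |exp y - 1 - y| ≤ (exp R + 1 + R) * y ^ 2 := by
  have hR : 0 ≤ R := (abs_nonneg _).trans hy
  have he := exp_pos R
  rcases le_total |y| 1 with h | h
  · nlinarith [abs_exp_sub_one_sub_id_le h, sq_nonneg y]
  · have h1 : 1 ≤ y ^ 2 := by rw [← sq_abs]; nlinarith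
    have h2 : exp y ≤ exp R := exp_le_exp.2 ((le_abs_self _).trans hy)
    have h3 : |exp y - 1 - y| ≤ exp R + 1 + R := by
      rw [abs_le] at hy ⊢
      constructor <;> linarith [exp_pos y]
    nlinarith

lemma sum_four {ι : Type} [Fintype ι] (f : ι → ι → ℝ) :
    ∑ p : ι × ι, ∑ q : ι × ι, (f p.1 q.1 + f p.1 q.2 + f p.2 q.1 + f p.2 q.2) =
      4 * (Fintype.card ι : ℝ) ^ 2 * ∑ i, ∑ k, f i k := by
  simp only [Fintype.sum_prod_type, sum_add_distrib, sum_const, card_univ, nsmul_eq_mul, ← mul_sum]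
  ring

/-- A linear functional restricted to configurations. -/
def lin (n : ℕ) (l : (ℤ → ℝ) →ₗ[ℝ] ℝ) : Conf n →+ ℝ := l.toAddMonoidHom.comp (cR n)

lemma lin_apply (n : ℕ) (l : (ℤ → ℝ) →ₗ[ℝ] ℝ) (ψ : Conf n) : lin n l ψ = l (cR n ψ) := rfl

theorem mom_lower {α β : ℝ} (hα : 2 < α) (hα3 : α < 3) (hβ : 0 < β) :
    ∃ C κ : ℝ, 0 ≤ C ∧ 0 ≤ κ ∧ κ < 3 - α ∧ ∀ (n : ℕ) (l : (ℤ → ℝ) →ₗ[ℝ] ℝ) (σ : ℝ), 0 ≤ σ →
      (∀ ψ, lin n l ψ ^ 2 ≤ σ * (chain hα hβ n).b ψ ψ) → ∀ h : ℤ → ℝ, Supp n h → ∀ δ : ℝ,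
      (∀ x, |h x - h (x - 1)| ≤ δ) →
      2 * l h - 2 * β * H α h - C * δ ^ 2 * (2 * (n : ℝ) + 2) ^ (1 + κ) ≤
        (chain hα hβ n).mom (lin n l) := by
  set γ := 3 * (α - 2) / 4 with hγ
  set κ := (3 - α) * (1 - (α - 2) / 4) with hκ
  have hκ0 : 0 ≤ κ := mul_nonneg (by linarith) (by linarith)
  have hγ0 : 0 ≤ γ := by linarith
  have hρ : 1 < γ + γ + κ := by nlinarith
  obtain ⟨C, hC, hG⟩ := G_bound (α := α) hγ0 (by linarith)
  have hZ : Summable fun z : ℤ => 1 / (|(z : ℝ)| + 1) ^ (γ + γ + κ) :=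
    Summable.of_nat_of_neg (by simpa using summable_shift_rpow hρ)
      (by simpa using summable_shift_rpow hρ)
  set Z := ∑' z : ℤ, 1 / (|(z : ℝ)| + 1) ^ (γ + γ + κ)
  have hZ0 : 0 ≤ Z := tsum_nonneg fun z => by positivity
  set K := exp (8 * β * C) + 1 + 8 * β * C
  have hK0 : 0 ≤ K := by positivity
  refine ⟨K * (16 * β ^ 2) * 4 * (C ^ 2 * Z), κ, by positivity, hκ0, by nlinarith,
    fun n l σ hσ hl h hh δ hδ => ?_⟩
  set I := Icc (-(n : ℤ)) (n + 1) with hI
  set N := 2 * (n : ℝ) + 2 with hN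
  have hN0 : 0 < N := by positivity
  have hcard : (Fintype.card I : ℝ) = N := by
    rw [Fintype.card_coe, hI, Int.card_Icc, show (n + 1 + 1 - -(n : ℤ)).toNat = 2 * n + 2 by omega]
    push_cast; rfl
  set G : ℤ → ℤ → ℝ := fun i k => C / (|(i : ℝ) - k| + 1) ^ γ with hGdef
  have hG0 : ∀ i k, 0 ≤ G i k := fun i k => by positivity
  have hG1 : ∀ i k, G i k ≤ C := fun i k =>
    div_le_self hC (one_le_rpow (by linarith [abs_nonneg ((i : ℝ) - k)]) hγ0)
  have hrow : ∀ i : I, ∑ k : I, G i k ^ 2 ≤ C ^ 2 * N ^ κ * Z := by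
    intro i
    have h1 : ∀ k : I, G i k ^ 2 ≤
        C ^ 2 * N ^ κ * (1 / (|(((i : ℤ) - k : ℤ) : ℝ)| + 1) ^ (γ + γ + κ)) := by
      intro k
      have hi := mem_Icc.1 i.2
      have hk := mem_Icc.1 k.2
      have h2 : |((i : ℤ) : ℝ) - (k : ℤ)| + 1 ≤ N := by
        have : |(i : ℤ) - k| + 1 ≤ 2 * (n : ℤ) + 2 := by
          have : |(i : ℤ) - k| ≤ 2 * (n : ℤ) + 1 := by rw [abs_le]; omega
          omega
        rw [hN]; exact_mod_cast this
      have h3 : 0 < |((i : ℤ) : ℝ) - (k : ℤ)| + 1 := by positivity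
      have h4 := rpow_le_rpow h3.le h2 hκ0
      simp only [hGdef]
      push_cast
      rw [rpow_add h3, rpow_add h3, div_pow, mul_one_div, div_le_div_iff₀ (by positivity)
        (by positivity), ← sq, mul_assoc, mul_comm (N ^ κ)]
      gcongr
    refine (sum_le_sum fun k _ => h1 k).trans ?_
    rw [← mul_sum, sum_coe_sort I fun k => 1 / (|(((i : ℤ) - k : ℤ) : ℝ)| + 1) ^ (γ + γ + κ)]
    refine mul_le_mul_of_nonneg_left ?_ (by positivity)
    have := (Equiv.subLeft (i : ℤ)).summable_iff.2 hZ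
    exact (this.sum_le_tsum I fun z _ => by simp only [Function.comp]; positivity).trans
      ((Equiv.subLeft (i : ℤ)).tsum_eq fun z : ℤ => 1 / (|(z : ℝ)| + 1) ^ (γ + γ + κ)).le
  let w : I × I → Conf n := fun p => ⟨fun x => step p.1 x - step p.2 x, fun x hx => by
    have hi := mem_Icc.1 p.1.2
    have hk := mem_Icc.1 p.2.2
    rw [lt_abs] at hx
    simp only [step]
    split_ifs <;> omega⟩
  let a : I × I → ℝ := fun p => (h p.1 - h (p.1 - 1)) / N
  have hdec : h = fun x => ∑ p, a p * cR n (w p) x := by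
    funext x
    have h1 := sum_step hh x
    have h2 := sum_step hh (n + 1)
    rw [hh (n + 1) (by rw [lt_abs]; omega), sum_congr rfl fun i hi => by
      rw [step, if_pos (mem_Icc.1 hi).2, Int.cast_one, mul_one]] at h2
    rw [← sum_coe_sort] at h1 h2
    have h3 : ∀ p : I × I, a p * cR n (w p) x = (h p.1 - h (p.1 - 1)) * step p.1 x / N -
        (h p.1 - h (p.1 - 1)) * (step p.2 x / N) := fun p => by
      show _ * ((step p.1 x - step p.2 x : ℤ) : ℝ) = _
      push_cast; ring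
    simp only [h3, Fintype.sum_prod_type, sum_sub_distrib (f := fun _ => _ / N), sum_const,
      card_univ, nsmul_eq_mul, ← mul_sum, hcard, ← sum_mul, ← sum_div]
    rw [h1, h2]
    field_simp
    ring
  have hl1 : l h = ∑ p, a p * lin n l (w p) := by
    have : h = ∑ p, a p • cR n (w p) := by rw [hdec]; funext x; simp
    rw [this, map_sum]
    simp only [map_smul, smul_eq_mul, lin_apply]
  have hH := H_sum (by linarith : 1 < α) univ a (fun p => cR n (w p)) fun p _ => supp_cR (w p)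
  rw [← hdec] at hH
  refine le_trans ?_ ((chain hα hβ n).le_mom hσ hl univ a w)
  rw [← hl1, sub_sub]
  refine sub_le_sub_left ?_ _
  have hδ0 : 0 ≤ δ := (abs_nonneg _).trans (hδ 0)
  have ha : ∀ p, |a p| ≤ δ / N := fun p => by
    rw [abs_div, abs_of_pos hN0]; exact div_le_div_of_nonneg_right (hδ _) hN0.le
  have hterm : ∀ p q, a p * a q * (exp (2 * (chain hα hβ n).b (w p) (w q)) - 1) ≤
      2 * β * (a p * a q * B α (cR n (w p)) (cR n (w q))) + (δ / N) ^ 2 * (K * (16 * β ^ 2)) *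
        (G p.1 q.1 ^ 2 + G p.1 q.2 ^ 2 + G p.2 q.1 ^ 2 + G p.2 q.2 ^ 2) := by
    intro p q
    have h1 : |B α (cR n (w p)) (cR n (w q))| ≤ _ := B_step hG p.1 p.2 q.1 q.2
    rw [chain_b]
    set b := B α (cR n (w p)) (cR n (w q))
    have h2 : |2 * (β * b)| ≤ 8 * β * C := by
      rw [abs_mul, abs_mul, abs_two, abs_of_pos hβ]
      nlinarith [hG1 p.1 q.1, hG1 p.1 q.2, hG1 p.2 q.1, hG1 p.2 q.2]
    have h3 := exp_sub_le h2
    have h4 : b ^ 2 ≤ 4 * (G p.1 q.1 ^ 2 + G p.1 q.2 ^ 2 + G p.2 q.1 ^ 2 + G p.2 q.2 ^ 2) := by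
      have := pow_le_pow_left₀ (abs_nonneg _) h1 2
      rw [sq_abs] at this
      nlinarith [sq_nonneg (G p.1 q.1 - G p.1 q.2), sq_nonneg (G p.1 q.1 - G p.2 q.1),
        sq_nonneg (G p.1 q.1 - G p.2 q.2), sq_nonneg (G p.1 q.2 - G p.2 q.1),
        sq_nonneg (G p.1 q.2 - G p.2 q.2), sq_nonneg (G p.2 q.1 - G p.2 q.2)]
    have h5 : |a p * a q| ≤ (δ / N) ^ 2 := by
      rw [abs_mul, sq]; exact mul_le_mul (ha p) (ha q) (abs_nonneg _) (by positivity)
    have h6 : (2 * (β * b)) ^ 2 ≤ 16 * β ^ 2 *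
        (G p.1 q.1 ^ 2 + G p.1 q.2 ^ 2 + G p.2 q.1 ^ 2 + G p.2 q.2 ^ 2) := by
      nlinarith [mul_le_mul_of_nonneg_left h4 (sq_nonneg β)]
    have h7 := mul_le_mul h5 (h3.trans (mul_le_mul_of_nonneg_left h6 hK0)) (abs_nonneg _)
      (by positivity)
    rw [← abs_mul] at h7
    nlinarith [le_abs_self (a p * a q * (exp (2 * (β * b)) - 1 - 2 * (β * b)))]
  refine (sum_le_sum fun p _ => sum_le_sum fun q _ => hterm p q).trans ?_
  simp only [sum_add_distrib (f := fun _ => 2 * β * _), ← mul_sum]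
  rw [← hH, sum_four fun i k : I => G i k ^ 2, hcard]
  have h8 : ∑ i : I, ∑ k : I, G i k ^ 2 ≤ N * (C ^ 2 * N ^ κ * Z) := by
    refine (sum_le_sum fun i _ => hrow i).trans ?_
    rw [sum_const, card_univ, nsmul_eq_mul, hcard]
  refine add_le_add_right ((mul_le_mul_of_nonneg_left (mul_le_mul_of_nonneg_left h8
    (by positivity)) (by positivity)).trans (le_of_eq ?_)) _
  rw [rpow_add hN0, rpow_one]
  field_simp

end DGC
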