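import Mathlib

/-!
Definitions for MP_57c4e5_pr: the long-range discrete Gaussian chain and its continuum energy.
-/

noncomputable section

namespace DGC

/-- Integer configurations on `ℤ` vanishing outside `{-n, …, n}`. -/
def Conf (n : ℕ) : Type := {ψ : ℤ → ℤ // ∀ x : ℤ, (n : ℤ) < |x| → ψ x = 0}

/-- The Hamiltonian: sum over unordered pairs `x < y` of `(u x - u y)^2 / (y - x)^α`. -/
def H (α : ℝ) (u : ℤ → ℝ) : ℝ :=
  ∑' p : ℤ × ℤ, if p.1 < p.2 then (u p.1 - u p.2) ^ 2 / ((p.2 : ℝ) - p.1) ^ α else 0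

/-- Expectation for the discrete Gaussian chain on `{-n, …, n}` at inverse temperature `β`. -/
def expect (α β : ℝ) (n : ℕ) (F : Conf n → ℝ) : ℝ :=
  (∑' ψ : Conf n, F ψ * Real.exp (-β * H α fun x => (ψ.1 x : ℝ))) /
    ∑' ψ : Conf n, Real.exp (-β * H α fun x => (ψ.1 x : ℝ))

/-- The variance of the height at the origin. -/
def var0 (α β : ℝ) (n : ℕ) : ℝ :=
  expect α β n (fun ψ => (ψ.1 0 : ℝ) ^ 2) - expect α β n (fun ψ => (ψ.1 0 : ℝ)) ^ 2

/-- The continuum energy: integral over `s < t` of `(u s - u t)^2 / (t - s)^α`. -/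
def energy (α : ℝ) (u : ℝ → ℝ) : ℝ :=
  ∫ p in {p : ℝ × ℝ | p.1 < p.2}, (u p.1 - u p.2) ^ 2 / (p.2 - p.1) ^ α

/-- Test functions: Lipschitz functions on the line vanishing outside `(-1, 1)`. -/
def Test : Set (ℝ → ℝ) := {u | (∃ L, LipschitzWith L u) ∧ ∀ s, 1 ≤ |s| → u s = 0}

/-- The Green quadratic form of the energy at the measure `∑ t i δ_(s i)`. -/
def green (α : ℝ) {k : ℕ} (s t : Fin k → ℝ) : ℝ :=
  sSup {r | ∃ u ∈ Test, r = 2 * ∑ i, t i * u (s i) - energy α u}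

/-- The rescaled, linearly interpolated configuration as a path on `[-1, 1]`. -/
def path (α : ℝ) (n : ℕ) (ψ : Conf n) : C(Set.Icc (-1 : ℝ) 1, ℝ) :=
  ⟨fun s => (∑ x ∈ Finset.Icc (-(n : ℤ)) n, (ψ.1 x : ℝ) * max 0 (1 - |n * (s : ℝ) - x|)) /
    (n : ℝ) ^ ((α - 2) / 2), by fun_prop⟩

end DGC
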