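import Pool.Agent.Lib.MP_57c4e5_pr.Defs

/-!
The discrete energy: summability, bilinear form, contraction, averaging, Morrey inequality.
-/

open Real Filter Topology Finset

noncomputable section

namespace DGC

/-- The coupling constants. -/
def J (α : ℝ) (p : ℤ × ℤ) : ℝ := if p.1 < p.2 then 1 / ((p.2 : ℝ) - p.1) ^ α else 0

lemma J_nonneg (α : ℝ) (p : ℤ × ℤ) : 0 ≤ J α p := by
  unfold J
  split_ifs with h
  · have : (0 : ℝ) < (p.2 : ℝ) - p.1 := by
      have : (p.1 : ℝ) < p.2 := by exact_mod_cast h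
      linarith
    positivity
  · exact le_rfl

lemma H_eq (α : ℝ) (u : ℤ → ℝ) : H α u = ∑' p : ℤ × ℤ, J α p * (u p.1 - u p.2) ^ 2 :=
  tsum_congr fun p => by unfold J; split_ifs <;> ring

lemma H_nonneg (α : ℝ) (u : ℤ → ℝ) : 0 ≤ H α u := by
  rw [H_eq]; exact tsum_nonneg fun p => mul_nonneg (J_nonneg _ _) (sq_nonneg _)

lemma sum_J {α : ℝ} {f : ℤ × ℤ → ℝ} (hf : ∀ p, 0 ≤ f p) {c : ℕ → ℝ}
    (h1 : ∀ r : ℕ, Summable fun x : ℤ => f (x, x + r + 1))
    (h2 : ∀ r : ℕ, ∑' x : ℤ, f (x, x + r + 1) ≤ c r)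
    (h3 : Summable fun r : ℕ => c r / ((r : ℝ) + 1) ^ α) :
    Summable (fun p => J α p * f p) ∧ ∑' p, J α p * f p ≤ ∑' r : ℕ, c r / ((r : ℝ) + 1) ^ α := by
  let g : ℕ × ℤ → ℤ × ℤ := fun q => (q.2, q.2 + q.1 + 1)
  have hg : Function.Injective g := by
    rintro ⟨r, x⟩ ⟨r', x'⟩ h
    simp only [g, Prod.mk.injEq] at h
    obtain ⟨rfl, h⟩ := h
    have : r = r' := by omega
    rw [this]
  have hsupp : ∀ p, p ∉ Set.range g → J α p * f p = 0 := by
    intro p hp
    have : ¬ p.1 < p.2 := fun h => hp ⟨((p.2 - p.1 - 1).toNat, p.1), by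
      simp only [g]
      refine Prod.ext rfl ?_
      simp only
      omega⟩
    simp [J, this]
  have hval : ∀ q : ℕ × ℤ, J α (g q) * f (g q) = f (q.2, q.2 + q.1 + 1) / ((q.1 : ℝ) + 1) ^ α := by
    intro q
    have : q.2 < q.2 + q.1 + 1 := by omega
    simp only [J, g, this, if_true]
    push_cast
    rw [show (q.2 : ℝ) + q.1 + 1 - q.2 = q.1 + 1 by ring]
    ring
  have hpos : ∀ r : ℕ, (0 : ℝ) < ((r : ℝ) + 1) ^ α := fun r => by positivity
  have hle : ∀ r : ℕ, ∑' x : ℤ, f (x, x + r + 1) / ((r : ℝ) + 1) ^ α ≤ c r / ((r : ℝ) + 1) ^ α :=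
    fun r => by rw [tsum_div_const]; exact div_le_div_of_nonneg_right (h2 r) (hpos r).le
  have hnn : ∀ r : ℕ, 0 ≤ ∑' x : ℤ, f (x, x + r + 1) / ((r : ℝ) + 1) ^ α :=
    fun r => tsum_nonneg fun x => div_nonneg (hf _) (hpos r).le
  have hs0 : Summable fun r : ℕ => ∑' x : ℤ, f (x, x + r + 1) / ((r : ℝ) + 1) ^ α :=
    Summable.of_nonneg_of_le hnn hle h3
  have hs : Summable fun q : ℕ × ℤ => f (q.2, q.2 + q.1 + 1) / ((q.1 : ℝ) + 1) ^ α :=
    by
    rw [summable_prod_of_nonneg fun q => div_nonneg (hf _) (hpos _).le]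
    exact ⟨fun r => (h1 r).div_const (((r : ℝ) + 1) ^ α), hs0⟩
  refine ⟨(hg.summable_iff hsupp).1 (hs.congr fun q => (hval q).symm), ?_⟩
  rw [← hg.tsum_eq (f := fun p => J α p * f p) fun p hp => by
    by_contra h; exact hp (hsupp p h)]
  simp_rw [hval]
  rw [hs.tsum_prod]
  exact hs0.tsum_le_tsum hle h3

lemma summable_shift_rpow {γ : ℝ} (hγ : 1 < γ) : Summable fun r : ℕ => 1 / ((r : ℝ) + 1) ^ γ := by
  have := (summable_nat_add_iff 1).2 (summable_one_div_nat_rpow.2 hγ)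
  simpa using this

/-- Functions vanishing outside `{-n, …, n}`. -/
def Supp (n : ℕ) (u : ℤ → ℝ) : Prop := ∀ x : ℤ, (n : ℤ) < |x| → u x = 0

lemma Supp.summable_sq {n : ℕ} {u : ℤ → ℝ} (hu : Supp n u) : Summable fun x => u x ^ 2 :=
  summable_of_ne_finset_zero (s := Icc (-(n : ℤ)) n) fun x hx => by
    rw [hu x (by rw [mem_Icc, ← abs_le] at hx; exact not_le.1 hx)]; ring

lemma summable_H {α : ℝ} (hα : 1 < α) {u : ℤ → ℝ} (hu : Summable fun x => u x ^ 2) :
    Summable fun p : ℤ × ℤ => J α p * (u p.1 - u p.2) ^ 2 := by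
  have hsh : ∀ r : ℕ, Summable fun x : ℤ => u (x + r + 1) ^ 2 := fun r => by
    have := (Equiv.addRight ((r : ℤ) + 1)).summable_iff.2 hu
    exact this.congr fun x => by simp [add_assoc]
  have hb : ∀ (r : ℕ) (x : ℤ), (u x - u (x + r + 1)) ^ 2 ≤ 2 * u x ^ 2 + 2 * u (x + r + 1) ^ 2 :=
    fun r x => by nlinarith [sq_nonneg (u x + u (x + r + 1))]
  have h1 : ∀ r : ℕ, Summable fun x : ℤ => (u x - u (x + r + 1)) ^ 2 := fun r =>
    Summable.of_nonneg_of_le (fun _ => sq_nonneg _) (hb r)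
      ((hu.mul_left 2).add ((hsh r).mul_left 2))
  refine (sum_J (f := fun p => (u p.1 - u p.2) ^ 2) (c := fun _ => 4 * ∑' x, u x ^ 2)
    (fun _ => sq_nonneg _) h1 (fun r => ?_) ?_).1
  · refine ((h1 r).tsum_le_tsum (hb r) ((hu.mul_left 2).add ((hsh r).mul_left 2))).trans ?_
    rw [(hu.mul_left 2).tsum_add ((hsh r).mul_left 2), tsum_mul_left, tsum_mul_left]
    have := (Equiv.addRight ((r : ℤ) + 1)).tsum_eq fun x => u x ^ 2
    simp only [Equiv.coe_addRight, ← add_assoc] at this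
    rw [this]; linarith
  · exact ((summable_shift_rpow hα).mul_left (4 * ∑' x, u x ^ 2)).congr fun r => by ring

lemma Supp.summ {α : ℝ} (hα : 1 < α) {n : ℕ} {u : ℤ → ℝ} (hu : Supp n u) :
    Summable fun p : ℤ × ℤ => J α p * (u p.1 - u p.2) ^ 2 := summable_H hα hu.summable_sq

/-- The bilinear form of the energy. -/
def B (α : ℝ) (u v : ℤ → ℝ) : ℝ := ∑' p : ℤ × ℤ, J α p * ((u p.1 - u p.2) * (v p.1 - v p.2))

lemma B_self (α : ℝ) (u : ℤ → ℝ) : B α u u = H α u := by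
  rw [H_eq]; exact tsum_congr fun p => by ring

lemma B_comm (α : ℝ) (u v : ℤ → ℝ) : B α u v = B α v u := tsum_congr fun p => by ring

lemma Supp.summB {α : ℝ} (hα : 1 < α) {n : ℕ} {u v : ℤ → ℝ} (hu : Supp n u) (hv : Supp n v) :
    Summable fun p : ℤ × ℤ => J α p * ((u p.1 - u p.2) * (v p.1 - v p.2)) := by
  refine Summable.of_norm_bounded ((hu.summ hα).add (hv.summ hα)) fun p => ?_
  rw [norm_mul, Real.norm_eq_abs, Real.norm_eq_abs, abs_of_nonneg (J_nonneg _ _), ← mul_add]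
  refine mul_le_mul_of_nonneg_left ?_ (J_nonneg _ _)
  rw [abs_le]
  constructor <;> nlinarith [sq_nonneg (u p.1 - u p.2 + (v p.1 - v p.2)),
    sq_nonneg (u p.1 - u p.2 - (v p.1 - v p.2)), sq_nonneg (u p.1 - u p.2),
    sq_nonneg (v p.1 - v p.2)]

lemma B_add {α : ℝ} (hα : 1 < α) {n : ℕ} {u v w : ℤ → ℝ} (hu : Supp n u) (hv : Supp n v)
    (hw : Supp n w) : B α u (fun x => v x + w x) = B α u v + B α u w := by
  rw [B, B, B, ← (hu.summB hα hv).tsum_add (hu.summB hα hw)]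
  exact tsum_congr fun p => by ring

lemma H_sum {α : ℝ} (hα : 1 < α) {n : ℕ} {ι : Type} (s : Finset ι) (a : ι → ℝ) (w : ι → ℤ → ℝ)
    (hw : ∀ i ∈ s, Supp n (w i)) :
    H α (fun x => ∑ i ∈ s, a i * w i x) = ∑ i ∈ s, ∑ j ∈ s, a i * a j * B α (w i) (w j) := by
  have := hasSum_sum (s := s) fun i hi => hasSum_sum (s := s) fun j hj =>
    (((hw i hi).summB hα (hw j hj)).hasSum.mul_left (a i * a j))
  rw [H_eq]
  refine HasSum.tsum_eq (this.congr_fun fun p => ?_)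
  rw [← sum_sub_distrib, sq, sum_mul_sum, mul_sum]
  refine sum_congr rfl fun i _ => ?_
  rw [mul_sum]
  exact sum_congr rfl fun j _ => by ring

lemma H_smul (α c : ℝ) (u : ℤ → ℝ) : H α (fun x => c * u x) = c ^ 2 * H α u := by
  rw [H_eq, H_eq, ← tsum_mul_left]
  exact tsum_congr fun p => by ring

lemma H_contract {α : ℝ} (hα : 1 < α) {n : ℕ} {g h : ℤ → ℝ} (hg : Supp n g) (hh : Supp n h)
    (hc : ∀ x y, |g x - g y| ≤ |h x - h y|) : H α g ≤ H α h := by
  rw [H_eq, H_eq]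
  exact (hg.summ hα).tsum_le_tsum (fun p => mul_le_mul_of_nonneg_left (sq_le_sq.2 (hc _ _))
    (J_nonneg _ _)) (hh.summ hα)

lemma H_shift {α : ℝ} {g : ℤ → ℝ} (hg : Summable fun p : ℤ × ℤ => J α p * (g p.1 - g p.2) ^ 2)
    (j : ℤ) : HasSum (fun p : ℤ × ℤ => J α p * (g (p.1 + j) - g (p.2 + j)) ^ 2) (H α g) := by
  have := (Equiv.addRight ((j, j) : ℤ × ℤ)).hasSum_iff.2 hg.hasSum
  rw [H_eq]
  refine this.congr_fun fun p => ?_
  simp only [Function.comp, Equiv.coe_addRight, Prod.fst_add, Prod.snd_add, J, add_lt_add_iff_right]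
  push_cast
  rw [add_sub_add_right_eq_sub]

lemma H_avg {α : ℝ} (hα : 1 < α) {n : ℕ} {g : ℤ → ℝ} (hg : Supp n g) {m : ℕ} (hm : 0 < m)
    (hs : Supp n fun x => (∑ j ∈ range m, g (x + j)) / m) :
    H α (fun x => (∑ j ∈ range m, g (x + j)) / m) ≤ H α g := by
  have h1 := (hasSum_sum (s := range m) fun j _ => H_shift (hg.summ hα) (j : ℤ)).div_const (m : ℝ)
  have hm' : (0 : ℝ) < m := by exact_mod_cast hm
  rw [sum_const, card_range, nsmul_eq_mul, mul_div_cancel_left₀ _ hm'.ne'] at h1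
  rw [H_eq]
  refine hasSum_le (fun p => ?_) (hs.summ hα).hasSum h1
  rw [← mul_sum, mul_div_assoc, ← sub_div, ← sum_sub_distrib]
  refine mul_le_mul_of_nonneg_left ?_ (J_nonneg _ _)
  have := sq_sum_le_card_mul_sum_sq (s := range m) (f := fun j : ℕ => g (p.1 + j) - g (p.2 + j))
  rw [card_range] at this
  rw [div_pow, div_le_div_iff₀ (by positivity) hm']
  nlinarith

/-- Discrete Morrey inequality. -/
theorem morrey {p : ℕ} (hp : 0 < p) {a : ℝ} (ha : 2 < a) : ∃ C : ℝ, 0 < C ∧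
    ∀ (u : ℤ → ℝ) (lo hi : ℤ) (S : ℝ),
      ∑ q ∈ Icc lo hi ×ˢ Icc lo hi, J a q * |u q.1 - u q.2| ^ p ≤ S →
      ∀ x ∈ Icc lo hi, ∀ y ∈ Icc lo hi,
        |u x - u y| ≤ C * |(x : ℝ) - y| ^ ((a - 2) / p) * S ^ (1 / p : ℝ) := by
  set κ := (a - 2) / p with hκ
  have hp' : (0 : ℝ) < p := by exact_mod_cast hp
  have hκ0 : 0 < κ := div_pos (by linarith) hp'
  obtain ⟨K, hK3, hK4⟩ : ∃ K : ℕ, 3 ≤ K ∧ 4 ≤ (K : ℝ) ^ κ := by
    have := ((tendsto_rpow_atTop hκ0).comp tendsto_natCast_atTop_atTop).eventually_ge_atTop 4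
    exact ((eventually_ge_atTop 3).and this).exists
  have hK0 : (0 : ℝ) < K := by exact_mod_cast (by omega : 0 < K)
  set C := 2 * (K : ℝ) ^ (2 / p : ℝ) with hC
  have hC0 : 0 < C := by positivity
  refine ⟨C, hC0, fun u lo hi S hS => ?_⟩
  have hS0 : 0 ≤ S := le_trans (sum_nonneg fun q _ => mul_nonneg (J_nonneg _ _) (by positivity)) hS
  set A := S ^ (1 / p : ℝ) with hA
  have hA0 : 0 ≤ A := by positivity
  have key : ∀ d : ℕ, ∀ x : ℤ, lo ≤ x → x + d ≤ hi → |u x - u (x + d)| ≤ C * (d : ℝ) ^ κ * A := by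
    intro d
    induction d using Nat.strong_induction_on with
    | _ d ih =>
    intro x hx1 hx2
    rcases Nat.eq_zero_or_pos d with rfl | hd
    · simp; positivity
    have hd' : (0 : ℝ) < d := by exact_mod_cast hd
    set m := d / K with hm
    have hm1 : m * K ≤ d := Nat.div_mul_le_self d K
    have hm2 : d < (m + 1) * K := by
      rw [hm, add_mul, one_mul]; exact Nat.lt_div_mul_add (by omega)
    have hm3 : 3 * m ≤ d := by nlinarith
    have hsub : Icc x (x + m) ×ˢ Icc (x + d - m) (x + d) ⊆ Icc lo hi ×ˢ Icc lo hi :=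
      product_subset_product (Icc_subset_Icc hx1 (by omega)) (Icc_subset_Icc (by omega) hx2)
    have hsum := (sum_le_sum_of_subset_of_nonneg hsub
      fun q _ _ => mul_nonneg (J_nonneg a q) (by positivity : 0 ≤ |u q.1 - u q.2| ^ p)).trans hS
    have hcard : ((Icc x (x + m) ×ˢ Icc (x + d - m) (x + d)).card : ℝ) = ((m : ℝ) + 1) ^ 2 := by
      rw [card_product, Int.card_Icc, Int.card_Icc,
        show (x + m + 1 - x).toNat = m + 1 by omega,
        show (x + d + 1 - (x + d - m)).toNat = m + 1 by omega]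
      push_cast; ring
    obtain ⟨q, hq, hq2⟩ := exists_le_of_sum_le (s := Icc x (x + m) ×ˢ Icc (x + d - m) (x + d))
      (f := fun q => J a q * |u q.1 - u q.2| ^ p) (g := fun _ => S / ((m : ℝ) + 1) ^ 2)
      ⟨(x, x + d), by simp⟩ (by
        rw [sum_const, nsmul_eq_mul, hcard, mul_div_cancel₀ _ (by positivity)]; exact hsum)
    simp only [mem_product, mem_Icc] at hq
    have hlt : q.1 < q.2 := by omega
    have hr0 : (0 : ℝ) < (q.2 : ℝ) - q.1 := by
      have : (q.1 : ℝ) < q.2 := by exact_mod_cast hlt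
      linarith
    have hr1 : (q.2 : ℝ) - q.1 ≤ d := by
      have : q.2 - q.1 ≤ d := by omega
      exact_mod_cast this
    have hmid : |u q.1 - u q.2| ≤ (K : ℝ) ^ (2 / p : ℝ) * (d : ℝ) ^ κ * A := by
      refine (pow_le_pow_iff_left₀ (abs_nonneg _) (by positivity) hp.ne').1 ?_
      have e1 : ((K : ℝ) ^ (2 / p : ℝ) * (d : ℝ) ^ κ * A) ^ p = K ^ 2 * (d : ℝ) ^ (a - 2) * S := by
        rw [mul_pow, mul_pow, hA, ← rpow_natCast (S ^ _), ← rpow_natCast (_ ^ κ),
          ← rpow_natCast ((K : ℝ) ^ _), ← rpow_mul hS0, ← rpow_mul hd'.le, ← rpow_mul hK0.le, hκ,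
          div_mul_cancel₀ _ hp'.ne', div_mul_cancel₀ _ hp'.ne', div_mul_cancel₀ _ hp'.ne',
          rpow_one, rpow_two]
      rw [e1]
      simp only [J, hlt, if_true] at hq2
      have h1 : 0 < ((q.2 : ℝ) - q.1) ^ a := by positivity
      rw [one_div, inv_mul_le_iff₀ h1] at hq2
      refine hq2.trans ?_
      have h2 : ((q.2 : ℝ) - q.1) ^ a ≤ (d : ℝ) ^ (a - 2) * d ^ 2 := by
        rw [← rpow_two, ← rpow_add hd', sub_add_cancel]
        exact rpow_le_rpow hr0.le hr1 (by linarith)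
      have h3 : (d : ℝ) ≤ ((m : ℝ) + 1) * K := by exact_mod_cast hm2.le
      have h4 : (d : ℝ) ^ 2 ≤ (((m : ℝ) + 1) * K) ^ 2 := pow_le_pow_left₀ hd'.le h3 2
      have h5 : 0 ≤ (d : ℝ) ^ (a - 2) := by positivity
      calc _ ≤ (d : ℝ) ^ (a - 2) * (((m : ℝ) + 1) * K) ^ 2 * (S / ((m : ℝ) + 1) ^ 2) :=
            mul_le_mul_of_nonneg_right (h2.trans (mul_le_mul_of_nonneg_left h4 h5))
              (by positivity)
        _ = _ := by field_simp
    have hside : ∀ (z : ℤ) (e : ℕ), e ≤ m → lo ≤ z → z + e ≤ hi →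
        |u z - u (z + e)| ≤ C / 4 * (d : ℝ) ^ κ * A := by
      intro z e he h1 h2
      refine (ih e (by omega) z h1 h2).trans (mul_le_mul_of_nonneg_right ?_ hA0)
      have h3 : (e : ℝ) * K ≤ d := by
        have : e * K ≤ d := (Nat.mul_le_mul_right K he).trans hm1
        exact_mod_cast this
      have h4 := rpow_le_rpow (by positivity) h3 hκ0.le
      rw [mul_rpow (by positivity) hK0.le] at h4
      have h5 : 0 ≤ (e : ℝ) ^ κ := by positivity
      nlinarith [mul_le_mul_of_nonneg_left hK4 h5]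
    have h1 := hside x (q.1 - x).toNat (by omega) hx1 (by omega)
    have h2 := hside q.2 (x + d - q.2).toNat (by omega) (by omega) (by omega)
    rw [show x + ((q.1 - x).toNat : ℤ) = q.1 by omega] at h1
    rw [show q.2 + ((x + d - q.2).toNat : ℤ) = x + d by omega] at h2
    have h3 := abs_sub_le (u x) (u q.1) (u (x + d))
    have h4 := abs_sub_le (u q.1) (u q.2) (u (x + d))
    have h5 : (K : ℝ) ^ (2 / p : ℝ) = C / 2 := by rw [hC]; ring
    rw [h5] at hmid
    linarith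
  intro x hx y hy
  rw [mem_Icc] at hx hy
  rcases le_total x y with h | h
  · have := key (y - x).toNat x hx.1 (by omega)
    rw [show x + ((y - x).toNat : ℤ) = y by omega] at this
    have e : (((y - x).toNat : ℕ) : ℝ) = |(x : ℝ) - y| := by
      rw [abs_sub_comm, ← Int.cast_sub, ← Int.cast_abs, abs_of_nonneg (by omega),
        ← Int.cast_natCast, Int.toNat_of_nonneg (by omega)]
    rwa [e] at this
  · have := key (x - y).toNat y hy.1 (by omega)
    rw [show y + ((x - y).toNat : ℤ) = x by omega, abs_sub_comm] at this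
    have e : (((x - y).toNat : ℕ) : ℝ) = |(x : ℝ) - y| := by
      rw [← Int.cast_sub, ← Int.cast_abs, abs_of_nonneg (by omega),
        ← Int.cast_natCast, Int.toNat_of_nonneg (by omega)]
    rwa [e] at this

theorem morrey_H {α : ℝ} (hα : 2 < α) : ∃ C : ℝ, 0 < C ∧ ∀ (n : ℕ) (u : ℤ → ℝ), Supp n u →
    ∀ x y : ℤ, |u x - u y| ≤ C * |(x : ℝ) - y| ^ ((α - 2) / 2) * √(H α u) := by
  obtain ⟨C, hC, h⟩ := morrey (p := 2) two_pos hα
  refine ⟨C, hC, fun n u hu x y => ?_⟩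
  have := h u (min x y) (max x y) (H α u) (by
    rw [H_eq]
    simp_rw [sq_abs]
    exact (hu.summ (by linarith)).sum_le_tsum _
      fun p _ => mul_nonneg (J_nonneg _ _) (sq_nonneg _)) x (by simp) y (by simp)
  rw [sqrt_eq_rpow]
  exact_mod_cast this

end DGC
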