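import Pool.Agent.Lib.MP_57c4e5_pr.Smooth

/-!
Sharp asymptotics of second moments and Laplace transforms of linear functionals.
-/

open Real Filter Topology Finset

noncomputable section

namespace DGC

/-- Linear interpolation of a lattice function. -/
def interp (n : ℕ) (v : ℝ) : (ℤ → ℝ) →ₗ[ℝ] ℝ where
  toFun h := ∑ x ∈ Icc (-(n : ℤ)) n, h x * max 0 (1 - |v - x|)
  map_add' g h := by simp [add_mul, sum_add_distrib]
  map_smul' c h := by simp [mul_sum, mul_assoc]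

lemma interp_eq {n : ℕ} {h : ℤ → ℝ} (hh : Supp n h) (v : ℝ) :
    interp n v h = (1 - (v - ⌊v⌋)) * h ⌊v⌋ + (v - ⌊v⌋) * h (⌊v⌋ + 1) := by
  have h1 := Int.floor_le v
  have h2 := Int.lt_floor_add_one v
  have e1 : interp n v h = ∑' x : ℤ, h x * max 0 (1 - |v - x|) :=
    (tsum_eq_sum (s := Icc (-(n : ℤ)) n) (f := fun x : ℤ => h x * max 0 (1 - |v - x|)) fun x hx => by
      rw [hh x (by rwa [mem_Icc, ← abs_le, not_le] at hx), zero_mul]).symm
  rw [e1, tsum_eq_sum (s := {⌊v⌋, ⌊v⌋ + 1}), sum_pair (by omega), abs_of_nonneg (by linarith),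
    abs_of_nonpos (by push_cast; linarith), max_eq_right (by linarith),
    max_eq_right (by push_cast; linarith)]
  · push_cast; ring
  · intro x hx
    simp only [mem_insert, mem_singleton, not_or] at hx
    rw [max_eq_left, mul_zero]
    rcases le_total x ⌊v⌋ with h3 | h3
    · have : (x : ℝ) + 1 ≤ ⌊v⌋ := by exact_mod_cast (by omega : x + 1 ≤ ⌊v⌋)
      linarith [le_abs_self (v - x)]
    · have : (⌊v⌋ : ℝ) + 2 ≤ x := by exact_mod_cast (by omega : ⌊v⌋ + 2 ≤ x)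
      linarith [neg_abs_le (v - x)]

lemma interp_close {n : ℕ} {h : ℤ → ℝ} (hh : Supp n h) {v c ω : ℝ} (h1 : |h ⌊v⌋ - c| ≤ ω)
    (h2 : |h (⌊v⌋ + 1) - c| ≤ ω) : |interp n v h - c| ≤ ω := by
  have h3 : 0 ≤ v - ⌊v⌋ := by linarith [Int.floor_le v]
  have h4 : 0 ≤ 1 - (v - ⌊v⌋) := by linarith [Int.lt_floor_add_one v]
  rw [interp_eq hh]
  rw [abs_le] at h1 h2 ⊢
  constructor <;> nlinarith [mul_le_mul_of_nonneg_left h1.1 h4, mul_le_mul_of_nonneg_left h1.2 h4,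
    mul_le_mul_of_nonneg_left h2.1 h3, mul_le_mul_of_nonneg_left h2.2 h3]

/-- The discrete linear functional. -/
def ell (n : ℕ) {k : ℕ} (s t : Fin k → ℝ) : (ℤ → ℝ) →ₗ[ℝ] ℝ := ∑ i, t i • interp n (n * s i)

lemma ell_apply (n : ℕ) {k : ℕ} (s t : Fin k → ℝ) (h : ℤ → ℝ) :
    ell n s t h = ∑ i, t i * interp n (n * s i) h := by simp [ell]

lemma ell_close {n : ℕ} (hn : 0 < n) {h : ℤ → ℝ} (hh : Supp n h) {L : NNReal} {u : ℝ → ℝ}
    (hu : LipschitzWith L u) {η : ℝ} (hc : ∀ x : ℤ, |u (x / n) - h x| ≤ η) {k : ℕ}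
    (s t : Fin k → ℝ) :
    |ell n s t h - ∑ i, t i * u (s i)| ≤ (∑ i, |t i|) * (η + L * (1 / n)) := by
  have hn' : (0 : ℝ) < n := by exact_mod_cast hn
  have key : ∀ (x : ℤ) (r : ℝ), |(x : ℝ) / n - r| ≤ 1 / n → |h x - u r| ≤ η + L * (1 / n) := by
    intro x r hx
    have h1 := (hu.dist_le_mul (x / n) r).trans (mul_le_mul_of_nonneg_left hx L.coe_nonneg)
    have h2 := hc x
    rw [abs_sub_comm] at h2
    exact (abs_sub_le _ _ _).trans (add_le_add h2 h1)
  rw [ell_apply, ← sum_sub_distrib, sum_mul]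
  refine (abs_sum_le_sum_abs _ _).trans (sum_le_sum fun i _ => ?_)
  rw [← mul_sub, abs_mul]
  refine mul_le_mul_of_nonneg_left (interp_close hh (key _ _ ?_) (key _ _ ?_)) (abs_nonneg _)
  · rw [abs_sub_comm]; exact abs_floor_div hn' _
  · push_cast
    rw [add_div, abs_le]
    constructor <;> linarith [floor_div_le hn' (s i), lt_floor_div hn' (s i), one_div_pos.2 hn']

theorem upper {α : ℝ} (hα : 2 < α) (hα3 : α < 3) {k : ℕ} (s t : Fin k → ℝ) {ε : ℝ} (hε : 0 < ε) :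
    ∀ᶠ n : ℕ in atTop, ∀ h : ℤ → ℝ, Supp n h →
      ell n s t h ^ 2 ≤ (green α s t + ε) * ((n : ℝ) ^ (α - 2) * H α h) := by
  set g := green α s t
  have hg : 0 ≤ g := green_nonneg hα hα3 s t
  set T := ∑ i, |t i|
  have hT : 0 ≤ T := sum_nonneg fun _ _ => abs_nonneg _
  obtain ⟨η, hη, hη0⟩ : ∃ η : ℝ, (√(g * (1 + η)) + T * (η + η)) ^ 2 < g + ε ∧ 0 < η := by
    have h1 : Continuous fun η : ℝ => (√(g * (1 + η)) + T * (η + η)) ^ 2 := by fun_prop
    exact ((((h1.tendsto 0).eventually (gt_mem_nhds (by simp [sq_sqrt hg, hε]))).filter_mono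
      nhdsWithin_le_nhds).and (self_mem_nhdsWithin (s := Set.Ioi 0))).exists
  obtain ⟨L, hL⟩ := smoothing hα hη0
  have h2 := (tendsto_one_div_atTop_nhds_zero_nat (𝕜 := ℝ)).const_mul (L : ℝ)
  rw [mul_zero] at h2
  filter_upwards [hL, riemann_unif hα hα3 L hη0, h2.eventually (gt_mem_nhds hη0),
    eventually_gt_atTop 0] with n hn1 hn2 hn3 hn
  have key : ∀ h : ℤ → ℝ, Supp n h → (n : ℝ) ^ (α - 2) * H α h ≤ 1 → ell n s t h ^ 2 ≤ g + ε := by
    intro h hh hE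
    obtain ⟨u, hu1, hu2, hu3, hu4⟩ := hn1 h hh hE
    have h3 := ell_close hn hh hu1 hu4 s t
    have h4 : energy α u ≤ 1 + η := (hn2 u hu1 hu2).trans (add_le_add_left
      ((mul_le_mul_of_nonneg_left hu3 (by positivity)).trans hE) _)
    have h5 := abs_le_sqrt ((sq_le_green hα hα3 s t ⟨⟨L, hu1⟩, hu2⟩).trans
      (mul_le_mul_of_nonneg_left h4 hg))
    have h6 : |ell n s t h| ≤ √(g * (1 + η)) + T * (η + η) := by
      have := abs_sub_abs_le_abs_sub (ell n s t h) (∑ i, t i * u (s i))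
      nlinarith [mul_le_mul_of_nonneg_left hn3.le hT]
    rw [← sq_abs]
    exact (pow_le_pow_left₀ (abs_nonneg _) h6 2).trans hη.le
  intro h hh
  have hp : 0 < (n : ℝ) ^ (α - 2) := rpow_pos_of_pos (by exact_mod_cast hn) _
  rcases (H_nonneg α h).eq_or_lt with h0 | h0
  · obtain ⟨K, -, hK⟩ := sq_le_H hα n
    have : h = 0 := funext fun x => by simpa [← h0] using hK h hh x
    rw [← h0, this]; simp
  set E := (n : ℝ) ^ (α - 2) * H α h with hE
  have hE0 : 0 < E := mul_pos hp h0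
  have h3 := key ((√E)⁻¹ • h) (fun x hx => by simp [hh x hx]) (by
    have := H_smul α (√E)⁻¹ h
    rw [show ((√E)⁻¹ • h) = fun x => (√E)⁻¹ * h x from rfl, this, inv_pow, sq_sqrt hE0.le,
      mul_left_comm, ← hE, inv_mul_cancel₀ hE0.ne'])
  rwa [map_smul, smul_eq_mul, mul_pow, inv_pow, sq_sqrt hE0.le, inv_mul_le_iff₀' hE0] at h3

lemma upper_chain {α β : ℝ} (hα : 2 < α) (hα3 : α < 3) (hβ : 0 < β) {k : ℕ} (s t : Fin k → ℝ)
    {ε : ℝ} (hε : 0 < ε) : ∀ᶠ n : ℕ in atTop, ∀ ψ, lin n (ell n s t) ψ ^ 2 ≤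
      (green α s t + ε) * (n : ℝ) ^ (α - 2) / β * (chain hα hβ n).b ψ ψ :=
  (upper hα hα3 s t hε).mono fun n hn ψ => (hn _ (supp_cR ψ)).trans (le_of_eq (by
    rw [chain_self]; field_simp))

theorem lower {α β : ℝ} (hα : 2 < α) (hα3 : α < 3) (hβ : 0 < β) {k : ℕ} (s t : Fin k → ℝ)
    {r : ℝ} (hr : r < green α s t / (2 * β)) :
    ∀ᶠ n : ℕ in atTop, r < (chain hα hβ n).mom (lin n (ell n s t)) / (n : ℝ) ^ (α - 2) := by
  rw [lt_div_iff₀ (by positivity)] at hr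
  obtain ⟨_, ⟨u, hu, rfl⟩, hr⟩ := exists_lt_of_lt_csSup (s := {r | ∃ u ∈ Test,
    r = 2 * ∑ i, t i * u (s i) - energy α u}) ⟨_, _, zero_test, rfl⟩ hr
  obtain ⟨L, hL⟩ := hu.1
  obtain ⟨C, κ, hC, hκ0, hκ, hm⟩ := mom_lower hα hα3 hβ
  have t1 : Tendsto (fun n : ℕ => ell n s t fun x => u (x / n)) atTop (𝓝 (∑ i, t i * u (s i))) := by
    have h2 := ((tendsto_one_div_atTop_nhds_zero_nat (𝕜 := ℝ)).const_mul (L : ℝ)).const_mul
      (∑ i, |t i|)
    rw [mul_zero, mul_zero] at h2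
    rw [tendsto_iff_dist_tendsto_zero]
    refine squeeze_zero' (Eventually.of_forall fun _ => dist_nonneg) ?_ h2
    filter_upwards [eventually_gt_atTop 0] with n hn
    simpa [Real.dist_eq] using ell_close hn (supp_test hu.2 hn) hL (η := 0) (by simp) s t
  have t2 := ((tendsto_rpow_neg_atTop (show 0 < 3 - α - κ by linarith)).comp
    tendsto_natCast_atTop_atTop).const_mul (C * (L / (2 * β)) ^ 2 * 4 ^ (1 + κ))
  have t3 := (((t1.const_mul 2).sub (riemann_one hα hα3 hu)).div_const (2 * β)).sub t2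
  rw [mul_zero, sub_zero] at t3
  filter_upwards [t3.eventually (lt_mem_nhds ((lt_div_iff₀ (by positivity)).2 hr)),
    upper_chain hα hα3 hβ s t one_pos, eventually_gt_atTop 0] with n hn1 hn2 hn
  have hn' : (0 : ℝ) < n := by exact_mod_cast hn
  have hp : 0 < (n : ℝ) ^ (α - 2) := by positivity
  have hg := green_nonneg hα hα3 s t
  set c := (n : ℝ) ^ (α - 2) / (2 * β) with hc
  have h3 := hm n _ _ (by positivity) hn2 (c • fun x : ℤ => u (x / n))
    (fun x hx => by simp [supp_test hu.2 hn x hx]) (c * (L * (1 / n))) fun x => by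
      have := hL.dist_le_mul (x / n) (((x - 1 : ℤ) : ℝ) / n)
      rw [Real.dist_eq, Real.dist_eq, ← sub_div, Int.cast_sub, sub_sub_cancel, Int.cast_one,
        abs_of_pos (one_div_pos.2 hn')] at this
      simp only [Pi.smul_apply, smul_eq_mul, ← mul_sub, abs_mul, Int.cast_sub, Int.cast_one]
      rw [abs_of_nonneg (by positivity)]
      exact mul_le_mul_of_nonneg_left this (by positivity)
  rw [map_smul, show (c • fun x : ℤ => u (x / n)) = fun x : ℤ => c * u (x / n) from rfl, H_smul,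
    smul_eq_mul] at h3
  refine hn1.trans_le ((le_div_iff₀ hp).2 (le_trans ?_ h3))
  have h4 : (2 * (n : ℝ) + 2) ^ (1 + κ) ≤ 4 ^ (1 + κ) * (n : ℝ) ^ (1 + κ) := by
    have : (1 : ℝ) ≤ n := by exact_mod_cast hn
    rw [← mul_rpow (by norm_num) hn'.le]
    exact rpow_le_rpow (by positivity) (by linarith) (by linarith)
  have h5 : (n : ℝ) ^ (-(3 - α - κ)) = (n : ℝ) ^ (α - 2) * (n : ℝ) ^ (1 + κ) / n ^ 2 := by
    rw [← rpow_add hn', ← rpow_two, ← rpow_sub hn']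
    congr 1; ring
  have h6 := mul_le_mul_of_nonneg_left h4 (by positivity : 0 ≤ C * (c * (L * (1 / n))) ^ 2)
  refine le_trans (le_of_eq ?_) (sub_le_sub_left h6 _)
  simp only [Function.comp, h5, hc]
  field_simp

theorem mom_tendsto {α β : ℝ} (hα : 2 < α) (hα3 : α < 3) (hβ : 0 < β) {k : ℕ} (s t : Fin k → ℝ) :
    Tendsto (fun n : ℕ => (chain hα hβ n).mom (lin n (ell n s t)) / (n : ℝ) ^ (α - 2)) atTop
      (𝓝 (green α s t / (2 * β))) := by
  refine tendsto_order.2 ⟨fun r hr => lower hα hα3 hβ s t hr, fun r hr => ?_⟩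
  rw [gt_iff_lt, div_lt_iff₀ (by positivity)] at hr
  have hg := green_nonneg hα hα3 s t
  filter_upwards [upper_chain hα hα3 hβ s t (half_pos (sub_pos.2 hr)), eventually_gt_atTop 0]
    with n hn1 hn
  have hp : 0 < (n : ℝ) ^ (α - 2) := rpow_pos_of_pos (by exact_mod_cast hn) _
  have h1 := (chain hα hβ n).mom_le (by have := sub_pos.2 hr; positivity) hn1
  rw [div_lt_iff₀ hp]
  refine h1.trans_lt ?_
  rw [div_div, div_lt_iff₀ (by positivity)]
  nlinarith

theorem mgf_tendsto {α β : ℝ} (hα : 2 < α) (hα3 : α < 3) (hβ : 0 < β) {k : ℕ} (s t : Fin k → ℝ)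
    (τ : ℝ) : Tendsto (fun n : ℕ => expect α β n fun ψ =>
      exp (τ * (ell n s t (cR n ψ) / (n : ℝ) ^ ((α - 2) / 2)))) atTop
      (𝓝 (exp (green α s t / (2 * β) * τ ^ 2 / 2))) := by
  have hg := green_nonneg hα hα3 s t
  have e1 : ∀ n : ℕ, (expect α β n fun ψ => exp (τ * (ell n s t (cR n ψ) / (n : ℝ) ^ ((α - 2) / 2))))
      = (chain hα hβ n).Zf (lin n (ell n s t)) (τ / (n : ℝ) ^ ((α - 2) / 2)) /
        (chain hα hβ n).Zf (lin n (ell n s t)) 0 := fun n => by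
    rw [expect_eq hα hβ, LatData.Zf_zero, LatData.Zf]
    congr 1
    refine tsum_congr fun ψ => ?_
    rw [← exp_add, lin_apply]
    congr 1; ring
  have e2 : ∀ n : ℕ, (τ / (n : ℝ) ^ ((α - 2) / 2)) ^ 2 = τ ^ 2 / (n : ℝ) ^ (α - 2) := fun n => by
    rw [div_pow, ← rpow_two (_ ^ _), ← rpow_mul n.cast_nonneg, div_mul_cancel₀ _ two_ne_zero]
  simp only [e1]
  refine tendsto_order.2 ⟨fun r hr => ?_, fun r hr => ?_⟩
  · have t1 := (((mom_tendsto hα hα3 hβ s t).mul_const (τ ^ 2)).div_const 2).rexp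
    filter_upwards [t1.eventually (lt_mem_nhds hr), upper_chain hα hα3 hβ s t one_pos]
      with n hn1 hn2
    refine hn1.trans_le (le_trans (le_of_eq ?_) ((chain hα hβ n).le_mgf (by positivity) hn2 _))
    rw [e2]; congr 1; ring
  · obtain ⟨ε, hε, hε0⟩ : ∃ ε : ℝ, exp ((green α s t + ε) / (2 * β) * τ ^ 2 / 2) < r ∧ 0 < ε := by
      have h1 : Continuous fun ε : ℝ => exp ((green α s t + ε) / (2 * β) * τ ^ 2 / 2) := by fun_prop
      exact ((((h1.tendsto 0).eventually (gt_mem_nhds (by simpa using hr))).filter_mono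
        nhdsWithin_le_nhds).and (self_mem_nhdsWithin (s := Set.Ioi 0))).exists
    filter_upwards [upper_chain hα hα3 hβ s t hε0, eventually_gt_atTop 0] with n hn1 hn
    have hp : 0 < (n : ℝ) ^ (α - 2) := rpow_pos_of_pos (by exact_mod_cast hn) _
    refine ((chain hα hβ n).mgf_le (by positivity) hn1 _).trans_lt (lt_of_eq_of_lt ?_ hε)
    rw [e2]; congr 1; field_simp; ring

theorem var_tendsto {α β : ℝ} (hα : 2 < α) (hα3 : α < 3) (hβ : 0 < β) :
    Tendsto (fun n : ℕ => var0 α β n / (n : ℝ) ^ (α - 2)) atTop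
      (𝓝 (green α ![0] ![1] / (2 * β))) := by
  refine (mom_tendsto hα hα3 hβ ![0] ![1]).congr fun n => ?_
  have e : ∀ ψ : Conf n, lin n (ell n ![0] ![1]) ψ = ψ.1 0 := fun ψ => by
    rw [lin_apply, ell_apply]
    simp [interp_eq (supp_cR ψ)]
    rfl
  have h1 := (chain hα hβ n).mean_zero (lin n (ell n ![0] ![1]))
  simp only [e] at h1
  rw [var0, expect_eq hα hβ, expect_eq hα hβ, h1, LatData.mom]
  simp [e]

end DGC
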