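import Pool.Agent.Lib.MP_57c4e5_pr.Energy

/-!
Riemann sums: the rescaled discrete energy of Lipschitz functions approximates the continuum energy.
-/

open Real Filter Topology MeasureTheory Set

noncomputable section

namespace DGC

/-- The integrand of the continuum energy. -/
def dens (α : ℝ) (u : ℝ → ℝ) (p : ℝ × ℝ) : ℝ :=
  if p.1 < p.2 then (u p.1 - u p.2) ^ 2 / (p.2 - p.1) ^ α else 0

lemma energy_eq (α : ℝ) (u : ℝ → ℝ) : energy α u = ∫ p, dens α u p := by
  rw [energy, ← integral_indicator (measurableSet_lt measurable_fst measurable_snd)]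
  exact integral_congr_ae (Eventually.of_forall fun p => by simp [dens, indicator])

lemma dens_nonneg (α : ℝ) (u : ℝ → ℝ) (p : ℝ × ℝ) : 0 ≤ dens α u p := by
  unfold dens
  split_ifs with h
  · have : 0 < p.2 - p.1 := sub_pos.2 h
    positivity
  · exact le_rfl

lemma energy_nonneg (α : ℝ) (u : ℝ → ℝ) : 0 ≤ energy α u := by
  rw [energy_eq]; exact integral_nonneg (dens_nonneg α u)

lemma energy_smul (α c : ℝ) (u : ℝ → ℝ) : energy α (fun s => c * u s) = c ^ 2 * energy α u := by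
  rw [energy, energy, ← integral_const_mul]
  exact integral_congr_ae (Eventually.of_forall fun p => by ring)

lemma measurable_dens (α : ℝ) {u : ℝ → ℝ} (hu : Continuous u) : Measurable (dens α u) :=
  Measurable.ite (measurableSet_lt measurable_fst measurable_snd) (by fun_prop) measurable_const

/-- Radial part of the dominating function. -/
def phi (α r : ℝ) : ℝ :=
  (Ioo 0 1).indicator (fun r => r ^ (2 - α)) r + (Ici 1).indicator (fun r => r ^ (-α)) r

/-- The dominating function. -/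
def dom (α : ℝ) (p : ℝ × ℝ) : ℝ :=
  ((Icc (-2) 2).indicator 1 p.1 + (Icc (-2) 2).indicator 1 p.2) * phi α (p.2 - p.1)

lemma phi_nonneg (α r : ℝ) : 0 ≤ phi α r :=
  add_nonneg (indicator_nonneg (fun _ h => rpow_nonneg h.1.le _) _)
    (indicator_nonneg (fun _ h => rpow_nonneg (zero_le_one.trans h) _) _)

lemma dom_nonneg (α : ℝ) (p : ℝ × ℝ) : 0 ≤ dom α p :=
  mul_nonneg (add_nonneg (indicator_nonneg (fun _ _ => zero_le_one) _)
    (indicator_nonneg (fun _ _ => zero_le_one) _)) (phi_nonneg _ _)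

lemma integrable_dom {α : ℝ} (hα : 2 < α) (hα3 : α < 3) : Integrable (dom α) := by
  have h1 : Integrable (phi α) := by
    refine Integrable.add ((integrable_indicator_iff measurableSet_Ioo).2 ?_)
      ((integrable_indicator_iff measurableSet_Ici).2 ?_)
    · exact (intervalIntegral.integrableOn_Ioo_rpow_iff one_pos).2 (by linarith)
    · exact (integrableOn_Ici_iff_integrableOn_Ioi).2
        (integrableOn_Ioi_rpow_of_lt (by linarith) one_pos)
  have h2 : Integrable ((Icc (-2 : ℝ) 2).indicator (1 : ℝ → ℝ)) :=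
    (integrable_indicator_iff measurableSet_Icc).2 (integrableOn_const (by simp))
  have h3 := (h2.convolution_integrand (ContinuousLinearMap.mul ℝ ℝ) h1).swap
  have h4 := h2.convolution_integrand (ContinuousLinearMap.mul ℝ ℝ) h1.comp_neg
  refine (h3.add h4).congr (Eventually.of_forall fun p => ?_)
  simp only [dom, Pi.add_apply, Function.comp, Prod.fst_swap, Prod.snd_swap,
    ContinuousLinearMap.mul_apply', neg_sub, add_mul]

lemma abs_le_of_test {L : NNReal} {u : ℝ → ℝ} (hu : LipschitzWith L u)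
    (h0 : ∀ s, 1 ≤ |s| → u s = 0) (s : ℝ) : |u s| ≤ L := by
  rcases le_total 1 |s| with h | h
  · rw [h0 s h, abs_zero]; exact L.2
  rw [abs_le] at h
  rcases le_total 0 s with h1 | h1
  · have := hu.dist_le_mul s 1
    rw [h0 1 (by simp), Real.dist_eq, Real.dist_eq, sub_zero, abs_of_nonpos (a := s - 1)
      (by linarith)] at this
    nlinarith [L.coe_nonneg]
  · have := hu.dist_le_mul s (-1)
    rw [h0 (-1) (by simp), Real.dist_eq, Real.dist_eq, sub_zero, abs_of_nonneg (a := s - -1)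
      (by linarith)] at this
    nlinarith [L.coe_nonneg]

lemma dens_le {α : ℝ} (hα : 2 < α) {L : NNReal} {u : ℝ → ℝ} (hu : LipschitzWith L u)
    (h0 : ∀ s, 1 ≤ |s| → u s = 0) {p q : ℝ × ℝ} (h1 : |p.1 - q.1| ≤ 1) (h2 : |p.2 - q.2| ≤ 1)
    (h3 : q.1 < q.2 → p.1 < p.2 ∧ p.2 - p.1 ≤ 2 * (q.2 - q.1)) :
    dens α u q ≤ 4 * 2 ^ α * L ^ 2 * dom α p := by
  have hd := dom_nonneg α p
  unfold dens
  split_ifs with h
  swap
  · positivity
  by_cases hz : 1 ≤ |q.1| ∧ 1 ≤ |q.2|
  · rw [h0 _ hz.1, h0 _ hz.2]; simp only [sub_self, ne_eq, OfNat.ofNat_ne_zero, not_false_eq_true,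
      zero_pow, zero_div]; positivity
  obtain ⟨h4, h5⟩ := h3 h
  have hr : 0 < p.2 - p.1 := sub_pos.2 h4
  have hr' : 0 < q.2 - q.1 := sub_pos.2 h
  have h6 : phi α (p.2 - p.1) ≤ dom α p := by
    refine le_mul_of_one_le_left (phi_nonneg _ _) ?_
    rw [abs_le] at h1 h2
    rw [not_and_or, not_le, not_le, abs_lt, abs_lt] at hz
    rcases hz with hz | hz
    · rw [indicator_of_mem (show p.1 ∈ Icc (-2 : ℝ) 2 from ⟨by linarith, by linarith⟩)]
      exact le_add_of_nonneg_right (indicator_nonneg (fun _ _ => zero_le_one) _)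
    · rw [indicator_of_mem (show p.2 ∈ Icc (-2 : ℝ) 2 from ⟨by linarith, by linarith⟩)]
      exact le_add_of_nonneg_left (indicator_nonneg (fun _ _ => zero_le_one) _)
  refine le_trans ?_ (mul_le_mul_of_nonneg_left h6 (by positivity))
  have key : ∀ γ : ℝ, 0 ≤ γ → γ ≤ α → (q.2 - q.1) ^ (-γ) ≤ 2 ^ α * (p.2 - p.1) ^ (-γ) := by
    intro γ hγ hγ'
    have e1 := rpow_le_rpow_of_nonpos (x := (p.2 - p.1) / 2) (y := q.2 - q.1) (z := -γ)
      (by positivity) (by linarith) (by linarith)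
    rw [div_rpow hr.le zero_le_two, rpow_neg zero_le_two, div_inv_eq_mul, mul_comm] at e1
    exact e1.trans (mul_le_mul_of_nonneg_right
      (rpow_le_rpow_of_exponent_le one_le_two hγ') (by positivity))
  rw [div_eq_mul_inv, ← rpow_neg hr'.le, phi]
  rcases lt_or_ge (p.2 - p.1) 1 with h7 | h7
  · rw [indicator_of_mem (show _ ∈ Ioo (0 : ℝ) 1 from ⟨hr, h7⟩),
      indicator_of_notMem (show _ ∉ Ici (1 : ℝ) from not_le.2 h7), add_zero]
    have e1 := hu.dist_le_mul q.1 q.2
    rw [Real.dist_eq, Real.dist_eq, abs_sub_comm q.1, abs_of_pos hr'] at e1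
    have e2 := pow_le_pow_left₀ (abs_nonneg _) e1 2
    rw [sq_abs, mul_pow] at e2
    have e3 := key (α - 2) (by linarith) (by linarith)
    rw [neg_sub] at e3
    have e4 : (q.2 - q.1) ^ 2 * (q.2 - q.1) ^ (-α) = (q.2 - q.1) ^ (2 - α) := by
      rw [← rpow_two, ← rpow_add hr']; rfl
    calc _ ≤ L ^ 2 * (q.2 - q.1) ^ 2 * (q.2 - q.1) ^ (-α) := by gcongr
      _ ≤ L ^ 2 * (2 ^ α * (p.2 - p.1) ^ (2 - α)) := by rw [mul_assoc, e4]; gcongr
      _ ≤ _ := by
        have : 0 ≤ L ^ 2 * (2 ^ α * (p.2 - p.1) ^ (2 - α)) := by positivity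
        linarith
  · rw [indicator_of_notMem (show _ ∉ Ioo (0 : ℝ) 1 from fun h => not_le.2 h.2 h7),
      indicator_of_mem (show _ ∈ Ici (1 : ℝ) from h7), zero_add]
    have e1 := abs_le.1 (abs_le_of_test hu h0 q.1)
    have e2 := abs_le.1 (abs_le_of_test hu h0 q.2)
    have e3 : (u q.1 - u q.2) ^ 2 ≤ (2 * L) ^ 2 := sq_le_sq' (by linarith) (by linarith)
    calc _ ≤ (2 * L) ^ 2 * (2 ^ α * (p.2 - p.1) ^ (-α)) :=
          mul_le_mul e3 (key α (by linarith) le_rfl) (by positivity) (by positivity)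
      _ = _ := by ring

lemma floor_div_le {n : ℝ} (hn : 0 < n) (s : ℝ) : ⌊n * s⌋ / n ≤ s := by
  rw [div_le_iff₀' hn]; exact Int.floor_le _

lemma lt_floor_div {n : ℝ} (hn : 0 < n) (s : ℝ) : s < ⌊n * s⌋ / n + 1 / n := by
  rw [← add_div, lt_div_iff₀' hn]; exact Int.lt_floor_add_one _

lemma abs_floor_div {n : ℝ} (hn : 0 < n) (s : ℝ) : |s - ⌊n * s⌋ / n| ≤ 1 / n := by
  rw [abs_le]
  constructor <;> linarith [floor_div_le hn s, lt_floor_div hn s, one_div_pos.2 hn]

lemma tendsto_floor_div (s : ℝ) : Tendsto (fun n : ℕ => (⌊n * s⌋ : ℝ) / n) atTop (𝓝 s) := by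
  rw [tendsto_iff_dist_tendsto_zero]
  refine squeeze_zero' (Eventually.of_forall fun _ => dist_nonneg) ?_
    tendsto_one_div_atTop_nhds_zero_nat
  filter_upwards [eventually_gt_atTop 0] with n hn
  rw [dist_comm]
  exact abs_floor_div (by exact_mod_cast hn) s

/-- The grid point below a point of the plane. -/
def grid (n : ℕ) (p : ℝ × ℝ) : ℝ × ℝ := ((⌊n * p.1⌋ : ℝ) / n, (⌊n * p.2⌋ : ℝ) / n)

lemma grid_lt {n : ℕ} (hn : 0 < n) {p : ℝ × ℝ} (h : (grid n p).1 < (grid n p).2) :
    p.1 < p.2 ∧ p.2 - p.1 ≤ 2 * ((grid n p).2 - (grid n p).1) := by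
  have hn' : (0 : ℝ) < n := by exact_mod_cast hn
  simp only [grid] at h ⊢
  have h1 : ⌊n * p.1⌋ + 1 ≤ ⌊n * p.2⌋ := by
    rw [div_lt_div_iff_of_pos_right hn'] at h
    exact_mod_cast h
  have h2 : (⌊n * p.1⌋ : ℝ) / n + 1 / n ≤ ⌊n * p.2⌋ / n := by
    rw [← add_div]
    exact div_le_div_of_nonneg_right (by exact_mod_cast h1) hn'.le
  constructor <;> linarith [floor_div_le hn' p.1, lt_floor_div hn' p.1, floor_div_le hn' p.2,
    lt_floor_div hn' p.2]

lemma dens_grid_le {α : ℝ} (hα : 2 < α) {L : NNReal} {u : ℝ → ℝ} (hu : LipschitzWith L u)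
    (h0 : ∀ s, 1 ≤ |s| → u s = 0) {n : ℕ} (hn : 0 < n) (p : ℝ × ℝ) :
    dens α u (grid n p) ≤ 4 * 2 ^ α * L ^ 2 * dom α p := by
  have hn' : (0 : ℝ) < n := by exact_mod_cast hn
  have h1 : (1 : ℝ) / n ≤ 1 := div_le_one_of_le₀ (by exact_mod_cast hn) hn'.le
  exact dens_le hα hu h0 ((abs_floor_div hn' _).trans h1) ((abs_floor_div hn' _).trans h1)
    (grid_lt hn)

lemma measurable_grid (n : ℕ) : Measurable (grid n) := by
  have h : Measurable fun s : ℝ => (⌊n * s⌋ : ℝ) / n :=
    (measurable_of_countable fun z : ℤ => (z : ℝ) / n).comp (by fun_prop)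
  exact (h.comp measurable_fst).prodMk (h.comp measurable_snd)

lemma integral_grid {α : ℝ} {u : ℝ → ℝ} {n : ℕ} (hn : 0 < n)
    (hi : Integrable fun p => dens α u (grid n p)) :
    ∫ p, dens α u (grid n p) = (n : ℝ) ^ (α - 2) * H α fun x => u (x / n) := by
  have hn' : (0 : ℝ) < n := by exact_mod_cast hn
  let q : ℝ × ℝ → ℤ × ℤ := fun p => (⌊n * p.1⌋, ⌊n * p.2⌋)
  have hq : Measurable q := by fun_prop
  let F : ℤ × ℤ → ℝ := fun x => dens α u (x.1 / n, x.2 / n)
  have hF : Measurable F := measurable_of_countable F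
  have h1 : ∫ p, dens α u (grid n p) = ∫ x, F x ∂(volume.map q) :=
    (integral_map hq.aemeasurable hF.aestronglyMeasurable).symm
  have h2 : ∀ x : ℤ × ℤ, (volume.map q).real {x} = 1 / n * (1 / n) := by
    intro x
    have e : ∀ (z : ℤ) (s : ℝ), ⌊n * s⌋ = z ↔ s ∈ Ico ((z : ℝ) / n) (z / n + 1 / n) := by
      intro z s
      rw [Int.floor_eq_iff, mem_Ico, ← add_div, div_le_iff₀' hn', lt_div_iff₀' hn']
    have : q ⁻¹' {x} = Ico ((x.1 : ℝ) / n) (x.1 / n + 1 / n) ×ˢ
        Ico ((x.2 : ℝ) / n) (x.2 / n + 1 / n) := by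
      ext p
      rw [mem_preimage, mem_singleton_iff, Prod.ext_iff, mem_prod, ← e, ← e]
    rw [map_measureReal_apply hq (measurableSet_singleton x), this, Measure.volume_eq_prod,
      measureReal_prod_prod, Real.volume_real_Ico_of_le (by simp),
      Real.volume_real_Ico_of_le (by simp), add_sub_cancel_left, add_sub_cancel_left]
  rw [h1, integral_countable ((integrable_map_measure hF.aestronglyMeasurable
    hq.aemeasurable).2 hi), H, ← tsum_mul_left]
  refine tsum_congr fun x => ?_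
  simp only [h2, F, dens, div_lt_div_iff_of_pos_right hn', Int.cast_lt, smul_eq_mul]
  split_ifs with h
  · have : (0 : ℝ) < (x.2 : ℝ) - x.1 := by
      have : (x.1 : ℝ) < x.2 := by exact_mod_cast h
      linarith
    rw [← sub_div, div_rpow this.le hn'.le, rpow_sub hn', rpow_two]
    field_simp
  · simp

/-- Riemann sums along a uniformly Lipschitz sequence of test functions. -/
theorem riemann {α : ℝ} (hα : 2 < α) (hα3 : α < 3) {L : NNReal} {u : ℕ → ℝ → ℝ}
    (hu : ∀ n, LipschitzWith L (u n)) (h0 : ∀ n s, 1 ≤ |s| → u n s = 0) :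
    Tendsto (fun n : ℕ => energy α (u n) - (n : ℝ) ^ (α - 2) * H α fun x => u n (x / n))
      atTop (𝓝 0) := by
  have hD := (integrable_dom hα hα3).const_mul (4 * 2 ^ α * L ^ 2)
  have hb1 : ∀ n p, dens α (u n) p ≤ 4 * 2 ^ α * L ^ 2 * dom α p := fun n p =>
    dens_le hα (hu n) (h0 n) (by simp) (by simp) fun h => ⟨h, by linarith⟩
  have hm1 := fun n => measurable_dens α (hu n).continuous
  have hm2 := fun n => (hm1 n).comp (measurable_grid n)
  have := tendsto_integral_filter_of_dominated_convergence (l := atTop) (μ := volume)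
    (F := fun (n : ℕ) p => dens α (u n) p - dens α (u n) (grid n p)) (f := fun _ => 0) _
    (Eventually.of_forall fun n => ((hm1 n).sub (hm2 n)).aestronglyMeasurable)
    (by
      filter_upwards [eventually_gt_atTop 0] with n hn
      refine Eventually.of_forall fun p => abs_le.2 ⟨?_, ?_⟩ <;>
        linarith [hb1 n p, dens_grid_le hα (hu n) (h0 n) hn p, dens_nonneg α (u n) p,
          dens_nonneg α (u n) (grid n p)]) hD (Eventually.of_forall fun p => ?_)
  · rw [integral_zero] at this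
    refine this.congr' ?_
    filter_upwards [eventually_gt_atTop 0] with n hn
    have i1 : Integrable (dens α (u n)) := hD.mono' (hm1 n).aestronglyMeasurable
      (Eventually.of_forall fun p => by rw [Real.norm_of_nonneg (dens_nonneg _ _ _)]; exact hb1 n p)
    have i2 : Integrable fun p => dens α (u n) (grid n p) := hD.mono' (hm2 n).aestronglyMeasurable
      (Eventually.of_forall fun p => by
        rw [Real.norm_of_nonneg (dens_nonneg _ _ _)]; exact dens_grid_le hα (hu n) (h0 n) hn p)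
    rw [integral_sub i1 i2, energy_eq, integral_grid hn i2]
  by_cases hp : p.1 < p.2
  swap
  · refine tendsto_const_nhds.congr' ?_
    filter_upwards [eventually_gt_atTop 0] with n hn
    rw [dens, dens, if_neg hp, if_neg fun h => hp (grid_lt hn h).1, sub_zero]
  have t1 := tendsto_floor_div p.1
  have t2 := tendsto_floor_div p.2
  have hr : 0 < p.2 - p.1 := sub_pos.2 hp
  have t3 : Tendsto (fun n : ℕ => ((grid n p).2 - (grid n p).1) ^ (-α)) atTop
      (𝓝 ((p.2 - p.1) ^ (-α))) := (t2.sub t1).rpow_const (Or.inl hr.ne')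
  have t4 := ((tendsto_one_div_atTop_nhds_zero_nat (𝕜 := ℝ)).const_mul
    (8 * L ^ 2 * (p.2 - p.1) ^ (-α))).add
    ((t3.const_sub ((p.2 - p.1) ^ (-α))).abs.const_mul (4 * (L : ℝ) ^ 2))
  rw [sub_self, abs_zero, mul_zero, mul_zero, add_zero] at t4
  refine squeeze_zero_norm' ?_ t4
  filter_upwards [eventually_gt_atTop 0, t1.eventually_lt t2 hp] with n hn hlt
  have hn' : (0 : ℝ) < n := by exact_mod_cast hn
  have hlt' : (grid n p).1 < (grid n p).2 := hlt
  rw [dens, dens, if_pos hp, if_pos hlt', div_eq_mul_inv, div_eq_mul_inv, ← rpow_neg hr.le,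
    ← rpow_neg (sub_pos.2 hlt').le]
  set k := (p.2 - p.1) ^ (-α)
  set k' := ((grid n p).2 - (grid n p).1) ^ (-α)
  have hk : 0 ≤ k := by positivity
  have e1 : ∀ s, |u n s - u n (⌊n * s⌋ / n)| ≤ L * (1 / n) := fun s =>
    ((hu n).dist_le_mul _ _).trans (mul_le_mul_of_nonneg_left (abs_floor_div hn' s) L.2)
  set A := u n p.1 - u n p.2
  set A' := u n (grid n p).1 - u n (grid n p).2
  have e2 : ∀ s t, |u n s - u n t| ≤ 2 * L := fun s t => (abs_sub _ _).trans
    (by linarith [abs_le_of_test (hu n) (h0 n) s, abs_le_of_test (hu n) (h0 n) t])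
  have e3 : |A - A'| ≤ 2 * L * (1 / n) := by
    have := abs_sub (u n p.1 - u n (grid n p).1) (u n p.2 - u n (grid n p).2)
    rw [show u n p.1 - u n (grid n p).1 - (u n p.2 - u n (grid n p).2) = A - A' by ring] at this
    linarith [show |u n p.1 - u n (grid n p).1| ≤ _ from e1 p.1,
      show |u n p.2 - u n (grid n p).2| ≤ _ from e1 p.2]
  have e4 : |A + A'| ≤ 4 * L := (abs_add_le _ _).trans 
    (by linarith [e2 p.1 p.2, e2 (grid n p).1 (grid n p).2])
  have e5 : A' ^ 2 ≤ (2 * L) ^ 2 := by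
    rw [← sq_abs]; exact pow_le_pow_left₀ (abs_nonneg _) (e2 _ _) 2
  rw [show A ^ 2 * k - A' ^ 2 * k' = (A - A') * (A + A') * k + A' ^ 2 * (k - k') by ring]
  refine (abs_add_le _ _).trans (add_le_add ?_ ?_)
  · rw [abs_mul, abs_mul, abs_of_nonneg hk]
    calc _ ≤ 2 * L * (1 / n) * (4 * L) * k := by gcongr
      _ = _ := by ring
  · rw [abs_mul, abs_of_nonneg (sq_nonneg _)]
    exact mul_le_mul_of_nonneg_right (by linarith) (abs_nonneg _)

end DGC
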