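import Pool.Agent.Lib.MP_57c4e5_pr.Riem
import Pool.Agent.Lib.MP_57c4e5_pr.Chain

/-!
Properties of the Green form, and smoothing of finite-energy lattice functions.
-/

open Real Filter Topology Finset

noncomputable section

namespace DGC

lemma morrey_norm {α : ℝ} (hα : 2 < α) : ∃ C : ℝ, 0 < C ∧ ∀ (n : ℕ) (h : ℤ → ℝ), Supp n h →
    ∀ (x y : ℤ) (δ : ℝ), 0 ≤ δ → |(x : ℝ) - y| ≤ δ * n →
      |h x - h y| ≤ C * δ ^ ((α - 2) / 2) * √((n : ℝ) ^ (α - 2) * H α h) := by
  obtain ⟨C, hC, hM⟩ := morrey_H hα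
  refine ⟨C, hC, fun n h hh x y δ hδ hxy => (hM n h hh x y).trans ?_⟩
  have h1 := rpow_le_rpow (abs_nonneg _) hxy (by linarith : 0 ≤ (α - 2) / 2)
  rw [mul_rpow hδ n.cast_nonneg] at h1
  rw [sqrt_mul (by positivity), sqrt_eq_rpow ((n : ℝ) ^ _), ← rpow_mul n.cast_nonneg, mul_one_div,
    ← mul_assoc, mul_assoc C (δ ^ _)]
  gcongr

lemma supp_test {u : ℝ → ℝ} (h0 : ∀ s, 1 ≤ |s| → u s = 0) {n : ℕ} (hn : 0 < n) :
    Supp n fun x => u (x / n) := fun x hx => h0 _ (by
  have hn' : (0 : ℝ) < n := by exact_mod_cast hn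
  rw [abs_div, abs_of_pos hn', le_div_iff₀ hn', one_mul]
  exact_mod_cast hx.le)

lemma riemann_one {α : ℝ} (hα : 2 < α) (hα3 : α < 3) {u : ℝ → ℝ} (hu : u ∈ Test) :
    Tendsto (fun n : ℕ => (n : ℝ) ^ (α - 2) * H α fun x => u (x / n)) atTop (𝓝 (energy α u)) := by
  obtain ⟨⟨L, hL⟩, h0⟩ := hu
  simpa using (riemann hα hα3 (u := fun _ => u) (fun _ => hL) fun _ => h0).const_sub (energy α u)

lemma riemann_unif {α : ℝ} (hα : 2 < α) (hα3 : α < 3) (L : NNReal) {η : ℝ} (hη : 0 < η) :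
    ∀ᶠ n : ℕ in atTop, ∀ u : ℝ → ℝ, LipschitzWith L u → (∀ s, 1 ≤ |s| → u s = 0) →
      energy α u ≤ (n : ℝ) ^ (α - 2) * H α (fun x => u (x / n)) + η := by
  have : ∀ n : ℕ, ∃ v : ℝ → ℝ, LipschitzWith L v ∧ (∀ s, 1 ≤ |s| → v s = 0) ∧
      (energy α v - (n : ℝ) ^ (α - 2) * H α (fun x => v (x / n)) < η →
        ∀ u : ℝ → ℝ, LipschitzWith L u → (∀ s, 1 ≤ |s| → u s = 0) →
          energy α u ≤ (n : ℝ) ^ (α - 2) * H α (fun x => u (x / n)) + η) := by
    intro n
    by_cases h : ∀ u : ℝ → ℝ, LipschitzWith L u → (∀ s, 1 ≤ |s| → u s = 0) →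
        energy α u ≤ (n : ℝ) ^ (α - 2) * H α (fun x => u (x / n)) + η
    · exact ⟨fun _ => 0, LipschitzWith.const' _, fun _ _ => rfl, fun _ => h⟩
    · push Not at h
      obtain ⟨v, h1, h2, h3⟩ := h
      exact ⟨v, h1, h2, fun h4 => by linarith⟩
  choose v h1 h2 h3 using this
  exact ((riemann hα hα3 h1 h2).eventually (gt_mem_nhds hη)).mono h3

lemma test_le {α : ℝ} (hα : 2 < α) (hα3 : α < 3) :
    ∃ C : ℝ, ∀ u ∈ Test, ∀ s, |u s| ≤ C * √(energy α u) := by
  obtain ⟨C, hC, hM⟩ := morrey_norm hα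
  refine ⟨C * 2 ^ ((α - 2) / 2), fun u hu s => ?_⟩
  rcases le_total 1 |s| with h | h
  · rw [hu.2 s h, abs_zero]; positivity
  obtain ⟨L, hL⟩ := hu.1
  refine le_of_tendsto_of_tendsto ((hL.continuous.tendsto s).comp (tendsto_floor_div s)).abs
    ((riemann_one hα hα3 hu).sqrt.const_mul _) ?_
  filter_upwards [eventually_gt_atTop 0] with n hn
  have hn' : (0 : ℝ) < n := by exact_mod_cast hn
  have := hM n _ (supp_test hu.2 hn) ⌊n * s⌋ n 2 zero_le_two (by
    rw [abs_le] at h ⊢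
    have h1 : -(n : ℤ) ≤ ⌊n * s⌋ := Int.le_floor.2 (by push_cast; nlinarith)
    have h2 : -(n : ℝ) ≤ ⌊n * s⌋ := by exact_mod_cast h1
    push_cast
    constructor <;> nlinarith [Int.floor_le (n * s)])
  simp only [Int.cast_natCast, div_self hn'.ne'] at this
  rwa [hu.2 1 (by simp), sub_zero] at this

lemma green_bdd {α : ℝ} (hα : 2 < α) (hα3 : α < 3) {k : ℕ} (s t : Fin k → ℝ) :
    BddAbove {r | ∃ u ∈ Test, r = 2 * ∑ i, t i * u (s i) - energy α u} := by
  obtain ⟨C, hC⟩ := test_le hα hα3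
  refine ⟨((∑ i, |t i|) * C) ^ 2, ?_⟩
  rintro r ⟨u, hu, rfl⟩
  have h1 : ∑ i, t i * u (s i) ≤ (∑ i, |t i|) * (C * √(energy α u)) := by
    rw [sum_mul]
    exact sum_le_sum fun i _ => (le_abs_self _).trans (by
      rw [abs_mul]; exact mul_le_mul_of_nonneg_left (hC u hu _) (abs_nonneg _))
  nlinarith [sq_sqrt (energy_nonneg α u), sq_nonneg ((∑ i, |t i|) * C - √(energy α u))]

lemma test_smul {u : ℝ → ℝ} (hu : u ∈ Test) (c : ℝ) : (fun s => c * u s) ∈ Test := by
  obtain ⟨⟨L, hL⟩, h0⟩ := hu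
  exact ⟨⟨_, (lipschitzWith_smul c).comp hL⟩, fun s hs => by simp [h0 s hs]⟩

lemma quad_le_green {α : ℝ} (hα : 2 < α) (hα3 : α < 3) {k : ℕ} (s t : Fin k → ℝ) {u : ℝ → ℝ}
    (hu : u ∈ Test) (c : ℝ) :
    2 * c * ∑ i, t i * u (s i) - c ^ 2 * energy α u ≤ green α s t :=
  le_csSup (green_bdd hα hα3 s t) ⟨_, test_smul hu c, by
    rw [energy_smul, mul_assoc, mul_sum _ _ c]
    congr 2
    exact sum_congr rfl fun i _ => by ring⟩

lemma zero_test : (fun _ => 0) ∈ Test := ⟨⟨0, LipschitzWith.const' _⟩, fun _ _ => rfl⟩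

lemma green_nonneg {α : ℝ} (hα : 2 < α) (hα3 : α < 3) {k : ℕ} (s t : Fin k → ℝ) :
    0 ≤ green α s t := by simpa using quad_le_green hα hα3 s t zero_test 0

lemma sq_le_green {α : ℝ} (hα : 2 < α) (hα3 : α < 3) {k : ℕ} (s t : Fin k → ℝ) {u : ℝ → ℝ}
    (hu : u ∈ Test) : (∑ i, t i * u (s i)) ^ 2 ≤ green α s t * energy α u := by
  have := discrim_le_zero (a := energy α u) (b := -2 * ∑ i, t i * u (s i)) (c := green α s t)
    fun c => by linarith [quad_le_green hα hα3 s t hu c]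
  rw [discrim] at this
  linarith

lemma green_pos {α : ℝ} (hα : 2 < α) (hα3 : α < 3) : 0 < green α ![0] ![1] := by
  have hu : (fun s : ℝ => max 0 (1 - |s|)) ∈ Test := by
    refine ⟨⟨1, LipschitzWith.const_max (LipschitzWith.of_dist_le_mul fun x y => ?_) 0⟩,
      fun s hs => max_eq_left (by linarith)⟩
    rw [Real.dist_eq, Real.dist_eq, NNReal.coe_one, one_mul, sub_sub_sub_cancel_left, abs_sub_comm]
    exact abs_abs_sub_abs_le_abs_sub x y
  have h1 := sq_le_green hα hα3 ![0] ![1] hu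
  refine (green_nonneg hα hα3 _ _).lt_of_ne fun h => ?_
  rw [← h] at h1
  norm_num at h1

/-- Soft thresholding. -/
def soft (η a : ℝ) : ℝ := max (a - η) 0 + min (a + η) 0

lemma soft_lip {η : ℝ} (hη : 0 ≤ η) (a b : ℝ) : |soft η a - soft η b| ≤ |a - b| := by
  have h1 := le_abs_self (a - b)
  have h2 := neg_abs_le (a - b)
  simp only [soft, max_def, min_def]
  split_ifs <;> rw [abs_le] <;> constructor <;> linarith

lemma soft_sub {η : ℝ} (hη : 0 ≤ η) (a : ℝ) : |soft η a - a| ≤ η := by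
  simp only [soft, max_def, min_def]
  split_ifs <;> rw [abs_le] <;> constructor <;> linarith

lemma soft_zero {η a : ℝ} (h : |a| ≤ η) : soft η a = 0 := by
  rw [abs_le] at h
  rw [soft, max_eq_right (by linarith), min_eq_right (by linarith), add_zero]

lemma int_lip {f : ℤ → ℝ} {a : ℝ} (h : ∀ x, |f (x + 1) - f x| ≤ a) (x y : ℤ) :
    |f x - f y| ≤ a * |(x : ℝ) - y| := by
  have key : ∀ (d : ℕ) (x : ℤ), |f (x + d) - f x| ≤ a * d := by
    intro d x
    induction d with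
    | zero => simp
    | succ d ih =>
      have := abs_sub_le (f (x + d + 1)) (f (x + d)) (f x)
      push_cast
      rw [← add_assoc]
      linarith [h (x + d)]
  rcases le_total x y with h1 | h1
  · obtain ⟨d, rfl⟩ := Int.le.dest h1
    rw [abs_sub_comm]
    simpa using key d x
  · obtain ⟨d, rfl⟩ := Int.le.dest h1
    simpa using key d y

theorem smoothing {α : ℝ} (hα : 2 < α) {η : ℝ} (hη : 0 < η) : ∃ L : NNReal, ∀ᶠ n : ℕ in atTop,
    ∀ h : ℤ → ℝ, Supp n h → (n : ℝ) ^ (α - 2) * H α h ≤ 1 → ∃ u : ℝ → ℝ, LipschitzWith L u ∧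
      (∀ s, 1 ≤ |s| → u s = 0) ∧ H α (fun x => u (x / n)) ≤ H α h ∧
        ∀ x : ℤ, |u (x / n) - h x| ≤ η := by
  obtain ⟨C, hC, hM⟩ := morrey_norm hα
  obtain ⟨δ, hδ, hδ0⟩ : ∃ δ : ℝ, C * δ ^ ((α - 2) / 2) < η / 2 ∧ 0 < δ := by
    have h1 : Tendsto (fun δ : ℝ => C * δ ^ ((α - 2) / 2)) (𝓝 0)
        (𝓝 (C * 0 ^ ((α - 2) / 2))) :=
      (continuousAt_rpow_const 0 _ (Or.inr (by linarith))).tendsto.const_mul C
    rw [zero_rpow (by linarith), mul_zero] at h1
    exact (((h1.eventually (gt_mem_nhds (half_pos hη))).filter_mono nhdsWithin_le_nhds).and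
      (self_mem_nhdsWithin (s := Set.Ioi 0))).exists
  obtain ⟨L, hL⟩ : ∃ L : NNReal, (L : ℝ) = η / δ := ⟨NNReal.mk (η / δ) (by positivity), rfl⟩
  refine ⟨L, ?_⟩
  filter_upwards [(tendsto_natCast_atTop_atTop.const_mul_atTop hδ0).eventually_ge_atTop 1,
    eventually_gt_atTop 0] with n hn1 hn h hh hE
  have hn' : (0 : ℝ) < n := by exact_mod_cast hn
  set m := ⌊δ * n⌋₊ with hm
  have hm1 : (m : ℝ) ≤ δ * n := Nat.floor_le (by positivity)
  have hm0 : 0 < m := Nat.floor_pos.2 hn1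
  have hm0' : (1 : ℝ) ≤ m := by exact_mod_cast hm0
  have hm2 : δ * n ≤ 2 * m := by linarith [Nat.lt_floor_add_one (δ * n)]
  have hmod : ∀ x y : ℤ, |x - y| ≤ m → |h x - h y| ≤ η / 2 := fun x y hxy => by
    refine (hM n h hh x y δ hδ0.le (le_trans (by exact_mod_cast hxy) hm1)).trans ?_
    have : 0 ≤ C * δ ^ ((α - 2) / 2) := by positivity
    nlinarith [sqrt_le_one.2 hE]
  set g : ℤ → ℝ := fun x => soft (η / 2) (h x) with hg
  have hg0 : ∀ x : ℤ, (n : ℤ) + 1 - m ≤ x ∨ x ≤ -((n : ℤ) + 1 - m) → g x = 0 := by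
    intro x hx
    refine soft_zero ?_
    by_cases h1 : (n : ℤ) < |x|
    · rw [hh x h1, abs_zero]; positivity
    rw [not_lt, abs_le] at h1
    rcases hx with hx | hx
    · simpa [hh (n + 1) (by rw [lt_abs]; omega)] using hmod x (n + 1) (by rw [abs_le]; omega)
    · simpa [hh (-n - 1) (by rw [lt_abs]; omega)] using hmod x (-n - 1) (by rw [abs_le]; omega)
  have hgs : Supp n g := fun x hx => hg0 x (by rw [lt_abs] at hx; omega)
  set f : ℤ → ℝ := fun x => (∑ j ∈ range m, g (x + j)) / m with hf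
  have hf0 : ∀ x : ℤ, (n : ℤ) ≤ |x| → f x = 0 := fun x hx => by
    rw [le_abs] at hx
    simp only [hf]
    rw [sum_eq_zero fun j hj => hg0 _ (by rw [mem_range] at hj; omega), zero_div]
  have hfH : H α f ≤ H α h := (H_avg (by linarith) hgs hm0 fun x hx => hf0 x hx.le).trans
    (H_contract (by linarith) hgs hh fun x y => soft_lip (by positivity) _ _)
  have hfh : ∀ x, |f x - h x| ≤ η := fun x => by
    have e : f x - h x = (∑ j ∈ range m, (g (x + j) - h x)) / m := by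
      rw [sum_sub_distrib, sum_const, card_range, nsmul_eq_mul, sub_div,
        mul_div_cancel_left₀ _ (by positivity)]
    rw [e, abs_div, abs_of_pos (by positivity : (0 : ℝ) < m), div_le_iff₀' (by positivity)]
    refine (abs_sum_le_sum_abs _ _).trans ((sum_le_card_nsmul _ _ η fun j hj => ?_).trans
      (by rw [card_range, nsmul_eq_mul]))
    rw [mem_range] at hj
    linarith [abs_sub_le (g (x + j)) (h (x + j)) (h x), soft_sub (half_pos hη).le (h (x + j)),
      hmod (x + j) x (by rw [abs_le]; omega)]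
  have hfl : ∀ x, |f (x + 1) - f x| ≤ η / δ / n := fun x => by
    have e : f (x + 1) - f x = (g (x + m) - g x) / m := by
      have := sum_range_sub (fun j : ℕ => g (x + j)) m
      simp only [Nat.cast_zero, add_zero] at this
      rw [← this, ← sub_div, ← sum_sub_distrib]
      congr 1
      exact sum_congr rfl fun j _ => by push_cast; ring_nf
    have h1 : |g (x + m) - g x| ≤ η / 2 :=
      (soft_lip (half_pos hη).le _ _).trans (hmod _ _ (by simp))
    rw [e, abs_div, abs_of_pos (by positivity : (0 : ℝ) < m), div_div,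
      div_le_div_iff₀ (by positivity) (by positivity)]
    nlinarith [mul_le_mul h1 hm2 (by positivity) (by positivity)]
  have hfl2 : ∀ x : ℤ, ⌊(n : ℝ) * (x / n)⌋ = x := fun x => by
    rw [mul_div_cancel₀ _ hn'.ne', Int.floor_intCast]
  obtain ⟨v, hv1, hv2⟩ := LipschitzOnWith.extend_real (K := L)
    (f := fun s : ℝ => f ⌊n * s⌋) (s := Set.range fun x : ℤ => (x : ℝ) / n)
    (LipschitzOnWith.of_dist_le_mul (by
      rintro _ ⟨x, rfl⟩ _ ⟨y, rfl⟩
      simp only [Real.dist_eq, hfl2]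
      rw [← sub_div (x : ℝ), abs_div, abs_of_pos hn', hL]
      exact (int_lip hfl x y).trans (le_of_eq (by ring))))
  have hv3 : ∀ x : ℤ, v (x / n) = f x := fun x => by
    rw [← hv2 ⟨x, rfl⟩]; simp only [hfl2]
  have hu0 : ∀ s : ℝ, 1 ≤ |s| → v (max (-1) (min 1 s)) = 0 := fun s hs => by
    rcases le_abs.1 hs with h1 | h1
    · have := hv3 n
      rw [Int.cast_natCast, div_self hn'.ne', hf0 n (by simp)] at this
      rwa [min_eq_left h1, max_eq_right (by norm_num)]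
    · have := hv3 (-n)
      rw [Int.cast_neg, Int.cast_natCast, neg_div, div_self hn'.ne', hf0 _ (by simp)] at this
      rwa [min_eq_right (by linarith), max_eq_left (by linarith)]
  have hu1 : ∀ x : ℤ, v (max (-1) (min 1 (x / n))) = f x := fun x => by
    rcases le_total (n : ℤ) |x| with h1 | h1
    · rw [hf0 x h1, hu0]
      rw [abs_div, abs_of_pos hn', le_div_iff₀ hn', one_mul]
      exact_mod_cast h1
    · have h2 : |(x : ℝ) / n| ≤ 1 := by
        rw [abs_div, abs_of_pos hn', div_le_one hn']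
        exact_mod_cast h1
      rw [abs_le] at h2
      rw [min_eq_right h2.2, max_eq_right h2.1, hv3]
  refine ⟨fun s => v (max (-1) (min 1 s)), ?_, hu0, by simpa only [hu1] using hfH,
    by simpa only [hu1] using hfh⟩
  have := hv1.comp ((LipschitzWith.id.const_min 1).const_max (-1))
  rwa [mul_one] at this

end DGC
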