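import Mathlib

/-!
Weak convergence on spaces of continuous paths from tightness and Laplace transforms.
-/

open Real Filter Topology MeasureTheory ProbabilityTheory BoundedContinuousFunction

noncomputable section

namespace DGC

lemma law_of_cluster {E : Type} [TopologicalSpace E] [MeasurableSpace E] [OpensMeasurableSpace E]
    {P : ℕ → ProbabilityMeasure E} {μ : ProbabilityMeasure E} (h : MapClusterPt μ atTop P)
    {l : E → ℝ} (hl : Continuous l) {v : ℝ} (hv : 0 ≤ v)
    (hi : ∀ τ n, Integrable (fun ω => exp (τ * l ω)) (P n))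
    (ht : ∀ τ, Tendsto (fun n => ∫ ω, exp (τ * l ω) ∂(P n)) atTop (𝓝 (exp (v * τ ^ 2 / 2)))) :
    (μ : Measure E).map l = gaussianReal 0 v.toNNReal := by
  obtain ⟨U, hU, hP⟩ := mapClusterPt_iff_ultrafilter.1 h
  have key : ∀ τ, Integrable (fun ω => exp (τ * l ω)) μ ∧
      ∫ ω, exp (τ * l ω) ∂μ = exp (v * τ ^ 2 / 2) := by
    intro τ
    let f : ℕ → E →ᵇ ℝ := fun R => ofNormedAddCommGroup (fun ω => min (exp (τ * l ω)) (R + 1))
      (by fun_prop) (R + 1) fun ω => by
        rw [Real.norm_of_nonneg (by positivity)]; exact min_le_right _ _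
    have hf : ∀ R ω, f R ω = min (exp (τ * l ω)) (R + 1) := fun _ _ => rfl
    have h1 := fun R => ProbabilityMeasure.tendsto_iff_forall_integral_tendsto.1 hP (f R)
    have h2 : ∀ R, ∫ ω, f R ω ∂μ ≤ exp (v * τ ^ 2 / 2) := fun R =>
      le_of_tendsto_of_tendsto' (h1 R) ((ht τ).mono_left hU) fun n =>
        integral_mono ((f R).integrable _) (hi τ n) fun ω => min_le_left _ _
    have h3 : ∀ R : ℕ, exp (v * τ ^ 2 / 2) - exp (v * (2 * τ) ^ 2 / 2) / (R + 1) ≤ ∫ ω, f R ω ∂μ :=
      fun R => le_of_tendsto_of_tendsto'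
        (((ht τ).sub ((ht (2 * τ)).div_const _)).mono_left hU) (h1 R) fun n => by
        rw [← integral_div, ← integral_sub (hi τ n) ((hi (2 * τ) n).div_const _)]
        refine integral_mono ((hi τ n).sub ((hi (2 * τ) n).div_const _)) ((f R).integrable _)
          fun ω => le_min (sub_le_self _ (by positivity)) ?_
        have e : exp (2 * τ * l ω) = exp (τ * l ω) ^ 2 := by rw [← exp_nat_mul]; congr 1; ring
        have hR : (0 : ℝ) < R + 1 := by positivity
        simp only [e]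
        rw [sub_le_iff_le_add, add_div' _ _ _ hR.ne', le_div_iff₀ hR]
        nlinarith [sq_nonneg (exp (τ * l ω) - (R + 1)), mul_pos (exp_pos (τ * l ω)) hR]
    have h4 : ∀ ω, Tendsto (fun R => f R ω) atTop (𝓝 (exp (τ * l ω))) := fun ω =>
      tendsto_const_nhds.congr' ((tendsto_natCast_atTop_atTop.eventually_ge_atTop
        (exp (τ * l ω))).mono fun R hR => (min_eq_left (by linarith)).symm)
    have hm : AEStronglyMeasurable (fun ω => exp (τ * l ω)) μ :=
      (by fun_prop : Continuous fun ω => exp (τ * l ω)).aestronglyMeasurable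
    have h5 : Integrable (fun ω => exp (τ * l ω)) μ := by
      refine ⟨hm, (hasFiniteIntegral_iff_ofReal (ae_of_all _ fun ω => (exp_pos _).le)).2 ?_⟩
      have := lintegral_tendsto_of_tendsto_of_monotone (μ := μ)
        (f := fun R ω => ENNReal.ofReal (f R ω)) (F := fun ω => ENNReal.ofReal (exp (τ * l ω)))
        (fun R => (f R).continuous.measurable.ennreal_ofReal.aemeasurable)
        (ae_of_all _ fun ω R S hRS => ENNReal.ofReal_le_ofReal (min_le_min_left _ (by
          have : (R : ℝ) ≤ S := by exact_mod_cast hRS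
          linarith)))
        (ae_of_all _ fun ω => ENNReal.tendsto_ofReal (h4 ω))
      refine (le_of_tendsto' this fun R => ?_).trans_lt
        (ENNReal.ofReal_lt_top (r := exp (v * τ ^ 2 / 2)))
      rw [← ofReal_integral_eq_lintegral_ofReal ((f R).integrable _)
        (ae_of_all _ fun ω => by rw [hf]; positivity)]
      exact ENNReal.ofReal_le_ofReal (h2 R)
    have h6 := tendsto_integral_of_dominated_convergence _
      (fun R => (f R).continuous.aestronglyMeasurable) h5
      (fun R => ae_of_all _ fun ω => by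
        rw [hf, Real.norm_of_nonneg (by positivity)]; exact min_le_left _ _) (ae_of_all _ h4)
    refine ⟨h5, le_antisymm (le_of_tendsto' h6 h2) ?_⟩
    have h7 := (tendsto_const_div_atTop_nhds_zero_nat (exp (v * (2 * τ) ^ 2 / 2))).comp
      (tendsto_add_atTop_nat 1)
    have h8 := le_of_tendsto_of_tendsto' (h7.const_sub (exp (v * τ ^ 2 / 2))) h6 fun R => by
      simpa using h3 R
    simpa using h8
  have e1 : mgf l μ = mgf id (gaussianReal 0 v.toNNReal) := by
    rw [mgf_id_gaussianReal]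
    funext τ
    rw [mgf, (key τ).2, Real.coe_toNNReal _ hv, zero_mul, zero_add]
  have e2 : integrableExpSet l μ = Set.univ := Set.eq_univ_of_forall fun τ => (key τ).1
  have e3 := Measure.ext_of_complexMGF_eq hl.measurable.aemeasurable aemeasurable_id
    (funext fun z => eqOn_complexMGF_of_mgf e1 (by simp [e2]))
  rwa [Measure.map_id] at e3

variable {K : Type} [MetricSpace K] [CompactSpace K]

omit [CompactSpace K] in
lemma isCompact_holder (M : ℝ) {κ : ℝ} (hκ : 0 < κ) :
    IsCompact {ω : C(K, ℝ) | (∀ s t, |ω s - ω t| ≤ M * dist s t ^ κ) ∧ ∀ s, |ω s| ≤ M} := by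
  have hb : Tendsto (fun r : ℝ => M * r ^ κ) (𝓝 0) (𝓝 0) := by
    simpa [zero_rpow hκ.ne'] using
      (continuousAt_rpow_const 0 κ (Or.inr hκ.le)).tendsto.const_mul M
  refine ArzelaAscoli.isCompact_of_equicontinuous _ ?_
    (Metric.equicontinuous_of_continuity_modulus _ hb _ fun x y ω => ω.2.1 x y)
  have e : ContinuousMap.toFun '' {ω : C(K, ℝ) | (∀ s t, |ω s - ω t| ≤ M * dist s t ^ κ) ∧
      ∀ s, |ω s| ≤ M} = (Set.univ.pi fun _ => Set.Icc (-M) M) ∩
        ⋂ s, ⋂ t, {f : K → ℝ | |f s - f t| ≤ M * dist s t ^ κ} := by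
    ext f
    simp only [Set.mem_image, Set.mem_ofPred_eq, Set.mem_inter_iff, Set.mem_pi, Set.mem_univ,
      true_imp_iff, Set.mem_iInter, Set.mem_Icc, ← abs_le]
    constructor
    · rintro ⟨ω, h, rfl⟩
      exact ⟨h.2, h.1⟩
    · rintro ⟨h1, h2⟩
      exact ⟨⟨f, (Metric.equicontinuous_of_continuity_modulus _ hb (fun _ : Unit => f)
        fun x y _ => h2 x y).continuous ()⟩, ⟨h2, h1⟩, rfl⟩
  rw [e]
  exact (isCompact_univ_pi fun _ => isCompact_Icc).inter_right (isClosed_iInter fun s =>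
    isClosed_iInter fun t => isClosed_le (by fun_prop) continuous_const)

variable [MeasurableSpace C(K, ℝ)] [BorelSpace C(K, ℝ)]

lemma ext_fdd {μ ν : Measure C(K, ℝ)} [IsFiniteMeasure μ] [IsFiniteMeasure ν]
    (h : ∀ (k : ℕ) (s : Fin k → K) (t : Fin k → ℝ),
      μ.map (fun ω => ∑ i, t i * ω (s i)) = ν.map fun ω => ∑ i, t i * ω (s i)) : μ = ν := by
  let : TopologicalSpace (K →₀ ℝ) := ⊥
  have : DiscreteTopology (K →₀ ℝ) := ⟨rfl⟩
  let L : C(K, ℝ) →ₗ[ℝ] (K →₀ ℝ) →ₗ[ℝ] ℝ := (Finsupp.linearCombination ℝ fun x : K =>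
    (ContinuousMap.evalCLM ℝ x : C(K, ℝ) →L[ℝ] ℝ).toLinearMap).flip
  have hL : ∀ ω w, L ω w = ∑ i, w (w.support.equivFin.symm i) * ω (w.support.equivFin.symm i) := by
    intro ω w
    rw [w.support.equivFin.symm.sum_comp fun x => w x * ω x,
      Finset.sum_coe_sort w.support fun x => w x * ω x]
    simp [L, Finsupp.linearCombination_apply, Finsupp.sum]
  have hc : ∀ w, Continuous fun ω => L ω w := fun w => by simp only [hL]; fun_prop
  refine ext_of_integral_char_eq (L := L) continuous_probChar probChar_ne_one (fun ω hω e => hω ?_)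
    (continuous_prod_of_discrete_right.2 hc) fun w => ?_
  · ext x
    simpa [L] using LinearMap.congr_fun e (Finsupp.single x 1)
  · have h1 : μ.map (fun ω => L ω w) = ν.map fun ω => L ω w := by
      simp only [hL]; exact h _ _ _
    have h2 : Continuous fun r : ℝ => (probChar r : ℂ) := by fun_prop
    simp only [char_apply]
    rw [← integral_map (hc w).measurable.aemeasurable h2.aestronglyMeasurable, h1,
      integral_map (hc w).measurable.aemeasurable h2.aestronglyMeasurable]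

theorem weak_limit {P : ℕ → ProbabilityMeasure C(K, ℝ)} {κ : ℝ} (hκ : 0 < κ)
    (htight : ∀ ε : ℝ, 0 < ε → ∃ M, ∀ n, (P n : Measure C(K, ℝ)).real
      {ω | (∀ s t, |ω s - ω t| ≤ M * dist s t ^ κ) ∧ ∀ s, |ω s| ≤ M}ᶜ ≤ ε)
    {v : (k : ℕ) → (Fin k → K) → (Fin k → ℝ) → ℝ} (hv : ∀ k s t, 0 ≤ v k s t)
    (hi : ∀ (k : ℕ) (s : Fin k → K) (t : Fin k → ℝ) τ n,
      Integrable (fun ω : C(K, ℝ) => exp (τ * ∑ i, t i * ω (s i))) (P n))
    (ht : ∀ k s t τ, Tendsto (fun n => ∫ ω : C(K, ℝ), exp (τ * ∑ i, t i * ω (s i)) ∂(P n)) atTop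
      (𝓝 (exp (v k s t * τ ^ 2 / 2)))) :
    ∃ μ : ProbabilityMeasure C(K, ℝ), (∀ k s t, (μ : Measure C(K, ℝ)).map
      (fun ω => ∑ i, t i * ω (s i)) = gaussianReal 0 (v k s t).toNNReal) ∧
      Tendsto P atTop (𝓝 μ) := by
  have hc : IsCompact (closure (Set.range P)) := by
    refine isCompact_closure_of_isTightMeasureSet
      (isTightMeasureSet_iff_exists_isCompact_measure_compl_le.2 fun ε hε => ?_)
    obtain ⟨δ, hδ0, hδ⟩ := ENNReal.lt_iff_exists_nnreal_btwn.1 hε
    obtain ⟨M, hM⟩ := htight δ (by exact_mod_cast hδ0)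
    refine ⟨_, isCompact_holder M hκ, ?_⟩
    rintro _ ⟨_, ⟨n, rfl⟩, rfl⟩
    refine le_trans ?_ hδ.le
    rw [← ofReal_measureReal, ← ENNReal.ofReal_coe_nnreal]
    exact ENNReal.ofReal_le_ofReal (hM n)
  have hmem : ∀ᶠ n in atTop, P n ∈ closure (Set.range P) :=
    Eventually.of_forall fun n => subset_closure ⟨n, rfl⟩
  have hlaw := fun μ (h : MapClusterPt μ atTop P) k s t =>
    law_of_cluster h (by fun_prop) (hv k s t) (hi k s t) (ht k s t)
  obtain ⟨μ, -, hμ⟩ := hc.exists_mapClusterPt (f := atTop) (le_principal_iff.2 hmem)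
  refine ⟨μ, hlaw μ hμ, hc.tendsto_nhds_of_unique_mapClusterPt hmem fun ν _ hν => ?_⟩
  exact ProbabilityMeasure.toMeasure_injective (ext_fdd fun k s t => (hlaw ν hν k s t).trans (hlaw μ hμ k s t).symm)

end DGC
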