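import Pool.Agent.Lib.MP_57c4e5_pr.Limit
import Pool.Agent.Lib.MP_57c4e5_pr.Weak

/-!
Tightness of the rescaled chain and the invariance principle.
-/

open Real Filter Topology Finset MeasureTheory ProbabilityTheory BoundedContinuousFunction

noncomputable section

namespace DGC

lemma LatData.moment_le {L : Type} [AddCommGroup L] (D : LatData L) {l : L →+ ℝ} {σ : ℝ}
    (hσ : 0 < σ) (hl : ∀ x, l x ^ 2 ≤ σ * D.b x x) (p : ℕ) :
    Summable (fun x => |l x| ^ p * exp (-D.b x x)) ∧ ∑' x, |l x| ^ p * exp (-D.b x x) ≤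
      2 * exp (1 / 4) * p.factorial * √σ ^ p * ∑' x, exp (-D.b x x) := by
  have hs : 0 < √σ := sqrt_pos.2 hσ
  have h1 := D.summ_Zf hσ.le hl (√σ)⁻¹
  have h2 := D.summ_Zf hσ.le hl (-(√σ)⁻¹)
  have hb : ∀ x, |l x| ^ p * exp (-D.b x x) ≤ p.factorial * √σ ^ p *
      (exp ((√σ)⁻¹ * l x - D.b x x) + exp (-(√σ)⁻¹ * l x - D.b x x)) := by
    intro x
    have h3 := pow_div_factorial_le_exp (|l x| / √σ) (by positivity) p
    have h4 : exp (|l x| / √σ) ≤ exp ((√σ)⁻¹ * l x) + exp (-(√σ)⁻¹ * l x) := by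
      rcases abs_cases (l x) with h | h
      · rw [h.1, div_eq_inv_mul]; exact le_add_of_nonneg_right (exp_pos _).le
      · rw [h.1, div_eq_inv_mul, mul_neg, neg_mul]; exact le_add_of_nonneg_left (exp_pos _).le
    rw [div_pow, div_div, div_le_iff₀' (by positivity)] at h3
    rw [sub_eq_add_neg, sub_eq_add_neg, exp_add, exp_add, ← add_mul, ← mul_assoc, mul_comm _ (_ ^ p)]
    exact mul_le_mul_of_nonneg_right (h3.trans (by gcongr)) (exp_pos _).le
  have h5 := Summable.of_nonneg_of_le (fun _ => by positivity) hb ((h1.add h2).mul_left _)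
  refine ⟨h5, (h5.tsum_le_tsum hb ((h1.add h2).mul_left _)).trans ?_⟩
  rw [tsum_mul_left, h1.tsum_add h2, ← D.Zf_zero l]
  have h6 := D.mgf_le hσ.le hl (√σ)⁻¹
  have h7 := D.mgf_le hσ.le hl (-(√σ)⁻¹)
  rw [neg_sq] at h7
  rw [inv_pow, sq_sqrt hσ.le, inv_mul_cancel₀ hσ.ne', div_le_iff₀ (D.Zf_pos hσ.le hl 0)] at h6 h7
  have := mul_le_mul_of_nonneg_left (add_le_add h6 h7)
    (by positivity : (0 : ℝ) ≤ p.factorial * √σ ^ p)
  exact this.trans (le_of_eq (by ring))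

lemma interp_holder {n : ℕ} {g : ℤ → ℝ} (hg : Supp n g) {A κ : ℝ} (hA : 0 ≤ A) (hκ : 0 < κ)
    (hκ1 : κ ≤ 1) (h : ∀ x ∈ Icc (-(n : ℤ) - 1) (n + 1), ∀ y ∈ Icc (-(n : ℤ) - 1) (n + 1),
      |g x - g y| ≤ A * |(x : ℝ) - y| ^ κ) :
    (∀ v w : ℝ, |v| ≤ n → |w| ≤ n → |interp n v g - interp n w g| ≤ 4 * A * |v - w| ^ κ) ∧
      ∀ v : ℝ, |v| ≤ n → |interp n v g| ≤ A * (2 * n + 1) ^ κ := by
  have hfl : ∀ v : ℝ, |v| ≤ n → -(n : ℤ) ≤ ⌊v⌋ ∧ ⌊v⌋ ≤ n := fun v hv =>
    ⟨Int.le_floor.2 (by push_cast; exact (abs_le.1 hv).1),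
      by simpa using Int.floor_mono (abs_le.1 hv).2⟩
  have h1 : ∀ x : ℤ, -(n : ℤ) ≤ x → x ≤ n → |g (x + 1) - g x| ≤ A := fun x h1 h2 => by
    simpa using h (x + 1) (mem_Icc.2 ⟨by omega, by omega⟩) x (mem_Icc.2 ⟨by omega, by omega⟩)
  have key : ∀ v w : ℝ, |v| ≤ n → |w| ≤ n → v ≤ w →
      |interp n w g - interp n v g| ≤ 4 * A * (w - v) ^ κ := by
    intro v w hv hw hvw
    have hv1 := hfl v hv
    have hw1 := hfl w hw
    have hr : 0 ≤ A * (w - v) ^ κ := mul_nonneg hA (rpow_nonneg (by linarith) _)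
    have f1 := Int.floor_le v
    have f2 := Int.lt_floor_add_one v
    have f3 := Int.floor_le w
    have f4 := Int.lt_floor_add_one w
    rcases le_total (w - v) 1 with h2 | h2
    · have h3 : A * (w - v) ≤ A * (w - v) ^ κ :=
        mul_le_mul_of_nonneg_left (self_le_rpow_of_le_one (by linarith) h2 hκ1) hA
      suffices |interp n w g - interp n v g| ≤ A * (w - v) by linarith
      have h4 : ⌊w⌋ ≤ ⌊v⌋ + 1 := by simpa using Int.floor_mono (show w ≤ v + 1 by linarith)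
      have h5 := Int.floor_mono hvw
      have a1 := abs_le.1 (h1 _ hv1.1 hv1.2)
      have a2 := abs_le.1 (h1 _ hw1.1 hw1.2)
      rw [interp_eq hg, interp_eq hg, abs_le]
      rcases (by omega : ⌊w⌋ = ⌊v⌋ ∨ ⌊w⌋ = ⌊v⌋ + 1) with e | e
      · rw [e]
        constructor <;> nlinarith [mul_le_mul_of_nonneg_left a1.1 (sub_nonneg.2 hvw),
          mul_le_mul_of_nonneg_left a1.2 (sub_nonneg.2 hvw)]
      · rw [e] at a2 f3 ⊢
        push_cast at f3 ⊢
        constructor <;> nlinarith [mul_le_mul_of_nonneg_left a1.1 (sub_nonneg.2 f2.le),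
          mul_le_mul_of_nonneg_left a1.2 (sub_nonneg.2 f2.le),
          mul_le_mul_of_nonneg_left a2.1 (sub_nonneg.2 f3),
          mul_le_mul_of_nonneg_left a2.2 (sub_nonneg.2 f3)]
    · have a1 := interp_close hg (v := v) (c := g ⌊v⌋) (by simpa using hA) (h1 _ hv1.1 hv1.2)
      have a2 := interp_close hg (v := w) (c := g ⌊w⌋) (by simpa using hA) (h1 _ hw1.1 hw1.2)
      have a3 := h ⌊w⌋ (mem_Icc.2 ⟨by omega, by omega⟩) ⌊v⌋ (mem_Icc.2 ⟨by omega, by omega⟩)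
      have a4 : |(⌊w⌋ : ℝ) - ⌊v⌋| ^ κ ≤ 2 * (w - v) ^ κ := by
        refine (rpow_le_rpow (abs_nonneg _) (show _ ≤ 2 * (w - v) by
          rw [abs_le]; constructor <;> linarith) hκ.le).trans ?_
        rw [mul_rpow zero_le_two (by linarith)]
        exact mul_le_mul_of_nonneg_right (rpow_le_self_of_one_le one_le_two hκ1)
          (rpow_nonneg (by linarith) _)
      have a5 := mul_le_mul_of_nonneg_left (one_le_rpow h2 hκ.le) hA
      have a6 := mul_le_mul_of_nonneg_left a4 hA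
      rw [abs_le] at a1 a2 a3 ⊢
      constructor <;> linarith
  refine ⟨fun v w hv hw => ?_, fun v hv => ?_⟩
  · rcases le_total v w with h2 | h2
    · rw [abs_sub_comm, abs_sub_comm v, abs_of_nonneg (sub_nonneg.2 h2)]; exact key v w hv hw h2
    · rw [abs_of_nonneg (sub_nonneg.2 h2)]; exact key w v hw hv h2
  have h2 : ∀ x : ℤ, -(n : ℤ) ≤ x → x ≤ n + 1 → |g x - 0| ≤ A * (2 * n + 1) ^ κ := fun x h1 h2 => by
    have := h x (mem_Icc.2 ⟨by omega, by omega⟩) (n + 1) (mem_Icc.2 ⟨by omega, by omega⟩)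
    rw [hg (n + 1) (by rw [lt_abs]; omega)] at this
    refine this.trans (mul_le_mul_of_nonneg_left (rpow_le_rpow (abs_nonneg _) ?_ hκ.le) hA)
    exact_mod_cast (show |x - (n + 1)| ≤ 2 * (n : ℤ) + 1 by rw [abs_le]; omega)
  have hv1 := hfl v hv
  simpa using interp_close hg (h2 _ hv1.1 (by omega)) (h2 (⌊v⌋ + 1) (by omega) (by omega))

lemma path_apply (α : ℝ) (n : ℕ) (ψ : Conf n) (s : Set.Icc (-1 : ℝ) 1) :
    path α n ψ s = interp n (n * s) (cR n ψ) / (n : ℝ) ^ ((α - 2) / 2) := rfl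

instance (n : ℕ) : Countable (Conf n) := by
  refine Function.Injective.countable (f := fun (ψ : Conf n) (x : Icc (-(n : ℤ)) n) => ψ.1 x)
    fun ψ φ e => Subtype.ext (funext fun x => ?_)
  by_cases hx : (n : ℤ) < |x|
  · rw [ψ.2 x hx, φ.2 x hx]
  · exact congrFun e ⟨x, by rwa [mem_Icc, ← abs_le, ← not_lt]⟩

theorem tight_expect {α β : ℝ} (hα : 2 < α) (hα3 : α < 3) (hβ : 0 < β) : ∃ κ : ℝ, 0 < κ ∧
    ∀ ε : ℝ, 0 < ε → ∃ M : ℝ, ∀ n : ℕ, 0 < n → expect α β n (fun ψ =>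
      {ω : C(Set.Icc (-1 : ℝ) 1, ℝ) | (∀ s t, |ω s - ω t| ≤ M * dist s t ^ κ) ∧
        ∀ s, |ω s| ≤ M}ᶜ.indicator 1 (path α n ψ)) ≤ ε := by
  obtain ⟨p, hp⟩ := exists_nat_gt (2 / ((α - 2) / 2))
  have hθ : 0 < (α - 2) / 2 := by linarith
  have hp0 : (0 : ℝ) < p := lt_trans (by positivity) hp
  set a := (α - 2) / 2 * p with ha
  have ha2 : 2 < a := by rwa [div_lt_iff₀' hθ] at hp
  obtain ⟨C, hC, hM⟩ := morrey (p := p) (by exact_mod_cast hp0) ha2
  obtain ⟨C', hC', hM'⟩ := morrey_H hα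
  set κ := (a - 2) / p with hκ
  have hκ0 : 0 < κ := div_pos (by linarith) hp0
  have hκ2 : κ + 2 / p = (α - 2) / 2 := by rw [hκ, ha]; field_simp; ring
  have hκ1 : κ ≤ 1 := by linarith [div_pos two_pos hp0]
  set Cp := 2 * exp (1 / 4) * p.factorial * (C' / √β) ^ p
  have hCp : 0 < Cp := by positivity
  refine ⟨κ, hκ0, fun ε hε => ⟨4 * C * (25 * Cp / ε) ^ (1 / p : ℝ), fun n hn => ?_⟩⟩
  have hn' : (0 : ℝ) < n := by exact_mod_cast hn
  have hn1 : (1 : ℝ) ≤ n := by exact_mod_cast hn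
  set T := 25 * Cp / ε with hT
  have hT0 : 0 < T := by positivity
  set I := Icc (-(n : ℤ) - 1) (n + 1)
  set D := chain hα hβ n
  have hZ : 0 < ∑' ψ, exp (-D.b ψ ψ) := D.summ0.tsum_pos (fun _ => (exp_pos _).le) 0 (exp_pos _)
  have hmom : ∀ q : ℤ × ℤ, Summable (fun ψ => J a q * |cR n ψ q.1 - cR n ψ q.2| ^ p *
      exp (-D.b ψ ψ)) ∧ ∑' ψ, J a q * |cR n ψ q.1 - cR n ψ q.2| ^ p * exp (-D.b ψ ψ) ≤
        Cp * ∑' ψ, exp (-D.b ψ ψ) := by
    intro q
    by_cases hq : q.1 < q.2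
    swap
    · simp only [J, hq, if_false, zero_mul, summable_zero, tsum_zero, true_and]; positivity
    have hr : (0 : ℝ) < (q.2 : ℝ) - q.1 := sub_pos.2 (by exact_mod_cast hq)
    have h1 := D.moment_le (l := lin n ((LinearMap.proj q.1 : (ℤ → ℝ) →ₗ[ℝ] ℝ) -
      (LinearMap.proj q.2 : (ℤ → ℝ) →ₗ[ℝ] ℝ)))
      (σ := (C' / √β * ((q.2 : ℝ) - q.1) ^ ((α - 2) / 2)) ^ 2) (by positivity) (fun ψ => by
        have h2 := pow_le_pow_left₀ (abs_nonneg _) (hM' n _ (supp_cR ψ) q.1 q.2) 2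
        rw [sq_abs, abs_sub_comm, abs_of_pos hr, mul_pow, sq_sqrt (H_nonneg _ _)] at h2
        rw [lin_apply, LinearMap.sub_apply, LinearMap.proj_apply, LinearMap.proj_apply]
        refine h2.trans (le_of_eq ?_)
        rw [chain_self, mul_pow, mul_pow, div_pow, sq_sqrt hβ.le]
        field_simp) p
    simp only [mul_assoc]
    refine ⟨h1.1.mul_left _, ?_⟩
    rw [tsum_mul_left]
    refine (mul_le_mul_of_nonneg_left h1.2 (J_nonneg _ _)).trans (le_of_eq ?_)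
    rw [sqrt_sq (by positivity), mul_pow, ← rpow_natCast (_ ^ _), ← rpow_mul hr.le, J, if_pos hq,
      ← ha]
    simp only [Cp]
    field_simp
  have hdet : ∀ ψ : Conf n, {ω : C(Set.Icc (-1 : ℝ) 1, ℝ) |
      (∀ s t, |ω s - ω t| ≤ 4 * C * T ^ (1 / p : ℝ) * dist s t ^ κ) ∧
        ∀ s, |ω s| ≤ 4 * C * T ^ (1 / p : ℝ)}ᶜ.indicator
          (1 : C(Set.Icc (-1 : ℝ) 1, ℝ) → ℝ) (path α n ψ) ≤
      (∑ q ∈ I ×ˢ I, J a q * |cR n ψ q.1 - cR n ψ q.2| ^ p) / (T * n ^ 2) := by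
    intro ψ
    rcases le_total (T * n ^ 2) (∑ q ∈ I ×ˢ I, J a q * |cR n ψ q.1 - cR n ψ q.2| ^ p) with h | h
    · exact (Set.indicator_le_self' (fun _ _ => zero_le_one) _).trans
        ((one_le_div (by positivity)).2 h)
    have h1 := interp_holder (supp_cR ψ) (A := C * (T * n ^ 2) ^ (1 / p : ℝ)) (by positivity) hκ0 hκ1
      fun x hx y hy => (hM _ _ _ _ h x hx y hy).trans (le_of_eq (by ring))
    have h2 : ∀ s : Set.Icc (-1 : ℝ) 1, |(n : ℝ) * s| ≤ n := fun s => by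
      rw [abs_mul, abs_of_pos hn']
      exact mul_le_of_le_one_right hn'.le (abs_le.2 s.2)
    have h3 : (T * n ^ 2) ^ (1 / p : ℝ) * (n : ℝ) ^ κ = T ^ (1 / p : ℝ) * n ^ ((α - 2) / 2) := by
      rw [mul_rpow hT0.le (by positivity), ← rpow_two, ← rpow_mul hn'.le, mul_assoc,
        ← rpow_add hn', ← hκ2]
      congr 2; ring
    have hp1 : 0 < (n : ℝ) ^ ((α - 2) / 2) := by positivity
    refine (Set.indicator_of_notMem (Set.notMem_compl_iff.2 ?_) _).trans_le ?_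
    refine ⟨fun s t => ?_, fun s => ?_⟩
    rotate_right
    · exact div_nonneg (sum_nonneg fun q _ => mul_nonneg (J_nonneg _ _) (by positivity))
        (by positivity)
    · rw [path_apply, path_apply, ← sub_div, abs_div, abs_of_pos hp1, div_le_iff₀ hp1]
      refine (h1.1 _ _ (h2 s) (h2 t)).trans (le_of_eq ?_)
      rw [← mul_sub, abs_mul, abs_of_pos hn', mul_rpow hn'.le (abs_nonneg _), Subtype.dist_eq,
        Real.dist_eq]
      linear_combination 4 * C * |(s : ℝ) - t| ^ κ * h3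
    · rw [path_apply, abs_div, abs_of_pos hp1, div_le_iff₀ hp1]
      refine (h1.2 _ (h2 s)).trans ?_
      have h4 : (2 * (n : ℝ) + 1) ^ κ ≤ 4 * (n : ℝ) ^ κ := by
        refine (rpow_le_rpow (by positivity) (show _ ≤ 4 * (n : ℝ) by linarith) hκ0.le).trans ?_
        rw [mul_rpow (by norm_num) hn'.le]
        exact mul_le_mul_of_nonneg_right (rpow_le_self_of_one_le (by norm_num) hκ1) (by positivity)
      refine (mul_le_mul_of_nonneg_left h4 (by positivity)).trans (le_of_eq ?_)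
      linear_combination 4 * C * h3
  have hsum := (hasSum_sum (s := I ×ˢ I) fun q _ => (hmom q).1.hasSum).div_const (T * n ^ 2)
  rw [expect_eq hα hβ, div_le_iff₀ hZ]
  refine (tsum_le_of_sum_le' (div_nonneg (sum_nonneg fun q _ => tsum_nonneg fun ψ => mul_nonneg
      (mul_nonneg (J_nonneg _ _) (by positivity)) (exp_pos _).le) (by positivity)) fun s => (sum_le_sum fun ψ _ => ?_).trans
    (sum_le_hasSum s (fun ψ _ => div_nonneg (sum_nonneg fun q _ => mul_nonneg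
      (mul_nonneg (J_nonneg _ _) (by positivity)) (exp_pos _).le) (by positivity)) hsum)).trans ?_
  · rw [← sum_mul, mul_div_right_comm]
    exact mul_le_mul_of_nonneg_right (hdet ψ) (exp_pos _).le
  rw [div_le_iff₀ (by positivity)]
  refine (sum_le_card_nsmul _ _ _ fun q _ => (hmom q).2).trans ?_
  rw [card_product, Int.card_Icc, show (n + 1 + 1 - (-(n : ℤ) - 1)).toNat = 2 * n + 3 by omega,
    nsmul_eq_mul, hT]
  push_cast
  have h5 : (2 * (n : ℝ) + 3) * (2 * n + 3) ≤ 25 * n ^ 2 := by nlinarith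
  refine (mul_le_mul_of_nonneg_right h5 (by positivity)).trans (le_of_eq ?_)
  field_simp

variable [MeasurableSpace C(Set.Icc (-1 : ℝ) 1, ℝ)] [BorelSpace C(Set.Icc (-1 : ℝ) 1, ℝ)]

/-- The law of the rescaled path. -/
def law {α β : ℝ} (hα : 2 < α) (hβ : 0 < β) (n : ℕ) : Measure C(Set.Icc (-1 : ℝ) 1, ℝ) :=
  Measure.sum fun ψ : Conf n => ENNReal.ofReal (exp (-(chain hα hβ n).b ψ ψ) /
    ∑' φ, exp (-(chain hα hβ n).b φ φ)) • Measure.dirac (path α n ψ)

lemma integral_law {α β : ℝ} (hα : 2 < α) (hβ : 0 < β) (n : ℕ)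
    (f : C(Set.Icc (-1 : ℝ) 1, ℝ) → ℝ) :
    ∫ ω, f ω ∂law hα hβ n = expect α β n fun ψ => f (path α n ψ) := by
  rw [law, integral_sum_dirac fun _ => ENNReal.ofReal_ne_top, expect_eq hα hβ, ← tsum_div_const]
  refine tsum_congr fun ψ => ?_
  rw [ENNReal.toReal_ofReal (div_nonneg (exp_pos _).le (tsum_nonneg fun _ => (exp_pos _).le)),
    smul_eq_mul]
  ring

lemma prob_law {α β : ℝ} (hα : 2 < α) (hβ : 0 < β) (n : ℕ) :
    IsProbabilityMeasure (law hα hβ n) := by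
  have h := integral_law hα hβ n fun _ => 1
  have hZ := ((chain hα hβ n).summ0.tsum_pos (fun _ => (exp_pos _).le) 0 (exp_pos _)).ne'
  rw [expect_eq hα hβ] at h
  simp only [one_mul, div_self hZ, integral_const, smul_eq_mul, mul_one] at h
  exact ⟨(ENNReal.toReal_eq_one_iff _).1 h⟩

theorem invariance {α β : ℝ} (hα : 2 < α) (hα3 : α < 3) (hβ : 0 < β) :
    ∃ μ : Measure C(Set.Icc (-1 : ℝ) 1, ℝ), IsProbabilityMeasure μ ∧
      (∀ (k : ℕ) (s : Fin k → Set.Icc (-1 : ℝ) 1) (t : Fin k → ℝ),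
        μ.map (fun ω => ∑ i, t i * ω (s i)) =
          gaussianReal 0 (green α (fun i => s i) t / (2 * β)).toNNReal) ∧
      ∀ F : C(Set.Icc (-1 : ℝ) 1, ℝ) →ᵇ ℝ,
        Tendsto (fun n => expect α β n fun ψ => F (path α n ψ)) atTop (𝓝 (∫ ω, F ω ∂μ)) := by
  obtain ⟨κ, hκ, hT⟩ := tight_expect hα hα3 hβ
  have e : ∀ (n k : ℕ) (s : Fin k → Set.Icc (-1 : ℝ) 1) (t : Fin k → ℝ) (ψ : Conf n),
      ∑ i, t i * path α n ψ (s i) = ell n (fun i => s i) t (cR n ψ) / (n : ℝ) ^ ((α - 2) / 2) :=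
    fun n k s t ψ => by simp only [ell_apply, path_apply, sum_div, mul_div_assoc]
  obtain ⟨μ, h1, h2⟩ := weak_limit (P := fun n => ⟨law hα hβ (n + 1), prob_law hα hβ _⟩) hκ
    (v := fun k s t => green α (fun i => s i) t / (2 * β)) (fun ε hε => (hT ε hε).imp fun M hM n => by
      rw [← integral_indicator_one (isCompact_holder M hκ).isClosed.measurableSet.compl]
      exact (integral_law hα hβ _ _).trans_le (hM _ n.succ_pos))
    (fun k s t => div_nonneg (green_nonneg hα hα3 _ _) (by positivity))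
    (fun k s t τ n => integrable_sum_dirac (fun _ => ENNReal.ofReal_ne_top) (by
      obtain ⟨K, hK, h⟩ := sq_le_H hα (n + 1)
      set l := ell (n + 1) (fun i => s i) t
      obtain ⟨A, hA0, hA⟩ : ∃ A, 0 ≤ A ∧ ∀ ψ, lin (n + 1) l ψ ^ 2 ≤
          A * (chain hα hβ (n + 1)).b ψ ψ := by
        refine ⟨(∑ i, |t i|) ^ 2 * K / β, by positivity, fun ψ => ?_⟩
        have h3 : |lin (n + 1) l ψ| ≤ (∑ i, |t i|) * √(K * H α (cR _ ψ)) := by
          rw [lin_apply, ell_apply, sum_mul]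
          refine (abs_sum_le_sum_abs _ _).trans (sum_le_sum fun i _ => ?_)
          rw [abs_mul]
          refine mul_le_mul_of_nonneg_left ?_ (abs_nonneg _)
          simpa using interp_close (supp_cR ψ) (c := 0)
            (by simpa using abs_le_sqrt (h _ (supp_cR ψ) _))
            (by simpa using abs_le_sqrt (h _ (supp_cR ψ) _))
        have h4 := pow_le_pow_left₀ (abs_nonneg _) h3 2
        rw [sq_abs, mul_pow, sq_sqrt (mul_nonneg hK.le (H_nonneg _ _))] at h4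
        refine h4.trans (le_of_eq ?_)
        rw [chain_self]; field_simp
      refine (((chain hα hβ (n + 1)).summ_Zf hA0 hA
        (τ / ((n + 1 : ℕ) : ℝ) ^ ((α - 2) / 2))).div_const
          (∑' φ, exp (-(chain hα hβ (n + 1)).b φ φ))).congr fun ψ => ?_
      rw [ENNReal.toReal_ofReal (div_nonneg (exp_pos _).le (tsum_nonneg fun _ => (exp_pos _).le)),
        Real.norm_of_nonneg (exp_pos _).le, e, div_mul_eq_mul_div (exp _), ← exp_add, lin_apply]
      congr 2; ring))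
    (fun k s t τ => ((mgf_tendsto hα hα3 hβ (fun i => s i) t τ).comp
      (tendsto_add_atTop_nat 1)).congr fun n => by
        simp only [Function.comp, ← e]
        exact (integral_law hα hβ (n + 1) fun ω => exp (τ * ∑ i, t i * ω (s i))).symm)
  refine ⟨μ, μ.2, h1, fun F => (tendsto_add_atTop_iff_nat 1).1 ?_⟩
  exact (ProbabilityMeasure.tendsto_iff_forall_integral_tendsto.1 h2 F).congr fun n =>
    integral_law hα hβ _ _

end DGC
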